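import Mathlib

set_option autoImplicit false

/-! Ordered and unordered configuration spaces: the covering map and path connectedness. -/

open Set Topology unitInterval

namespace Pool.Agent.H56Z.GB

/-- ordered configurations -/
abbrev Conf (Y : Type) (n : ℕ) := {f : Fin n → Y // Function.Injective f}

/-- unordered configurations -/
abbrev UC (Y : Type) (n : ℕ) :=
  Quot (fun f g : Conf Y n => ∃ π : Equiv.Perm (Fin n), g.1 = f.1 ∘ π)

variable {Y : Type} {n : ℕ}

/-- the class of an ordered configuration -/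
def mk (f : Conf Y n) : UC Y n := Quot.mk _ f

lemma mk_surj (x : UC Y n) : ∃ f : Conf Y n, mk f = x := Quot.exists_rep x

lemma rel_equiv : Equivalence (fun f g : Conf Y n => ∃ π : Equiv.Perm (Fin n), g.1 = f.1 ∘ π) := by
  refine ⟨fun f => ⟨1, rfl⟩, ?_, ?_⟩
  · rintro f g ⟨π, h⟩
    refine ⟨π⁻¹, ?_⟩
    rw [h]; funext i; simp
  · rintro f g k ⟨π, h⟩ ⟨τ, h'⟩
    refine ⟨π * τ, ?_⟩
    rw [h', h]; rfl

lemma mk_eq_iff (f g : Conf Y n) : mk f = mk g ↔ ∃ π : Equiv.Perm (Fin n), g.1 = f.1 ∘ π := by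
  unfold mk
  rw [Quot.eq, rel_equiv.eqvGen_iff]

lemma mk_eq_iff_range (f g : Conf Y n) : mk f = mk g ↔ range f.1 = range g.1 := by
  rw [mk_eq_iff]
  constructor
  · rintro ⟨π, h⟩
    rw [h, π.surjective.range_comp]
  · intro h
    refine ⟨(Equiv.ofInjective g.1 g.2).trans ((Equiv.setCongr h.symm).trans
      (Equiv.ofInjective f.1 f.2).symm), ?_⟩
    funext i
    simp [Equiv.apply_ofInjective_symm]

/-- the permutation action on ordered configurations -/
@[reducible] def act (Y : Type) (n : ℕ) : MulAction (Equiv.Perm (Fin n)) (Conf Y n) where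
  smul π f := ⟨f.1 ∘ π.symm, f.2.comp π.symm.injective⟩
  one_smul _ := rfl
  mul_smul _ _ _ := rfl

variable [TopologicalSpace Y]

lemma mk_quot : IsQuotientMap (mk : Conf Y n → UC Y n) := isQuotientMap_quot_mk

lemma mk_cont : Continuous (mk : Conf Y n → UC Y n) := continuous_quot_mk

lemma coord_cont (i : Fin n) : Continuous (fun f : Conf Y n => f.1 i) :=
  (continuous_apply i).comp continuous_subtype_val

lemma mk_cov [T2Space Y] : IsCoveringMap (mk : Conf Y n → UC Y n) := by
  let _ := act Y n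
  have h : IsQuotientCoveringMap (mk : Conf Y n → UC Y n) (Equiv.Perm (Fin n)) :=
    { toIsQuotientMap := mk_quot
      continuous_const_smul := fun π => by
        refine Continuous.subtype_mk ?_ _
        exact continuous_pi fun i => coord_cont _
      apply_eq_iff_mem_orbit := by
        intro f g
        rw [eq_comm, mk_eq_iff]
        constructor
        · rintro ⟨π, h⟩
          exact ⟨π.symm, Subtype.ext h.symm⟩
        · rintro ⟨π, h⟩
          exact ⟨π.symm, (congrArg Subtype.val h).symm⟩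
      disjoint := by
        intro f
        obtain ⟨U, hU, hd⟩ := (Set.finite_range f.1).t2_separation
        refine ⟨⋂ i, (fun g : Conf Y n => g.1 i) ⁻¹' U (f.1 i), ?_, ?_⟩
        · rw [Filter.iInter_mem]
          intro i
          exact (coord_cont i).continuousAt.preimage_mem_nhds ((hU _).2.mem_nhds (hU _).1)
        · rintro π ⟨_, ⟨g, hg, rfl⟩, hg'⟩
          rw [mem_iInter] at hg hg'
          ext i
          have h1 : g.1 (π.symm i) ∈ U (f.1 i) := hg' i
          have h2 : g.1 (π.symm i) ∈ U (f.1 (π.symm i)) := hg (π.symm i)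
          have h3 : f.1 i = f.1 (π.symm i) := by
            by_contra hne
            exact Set.disjoint_left.1 (hd ⟨_, rfl⟩ ⟨_, rfl⟩ hne) h1 h2
          have h4 := f.2 h3
          have h5 : π i = i := by
            conv_lhs => rw [h4]
            simp
          simp [h5] }
  exact h.isCoveringMap

lemma move (f : Conf Y n) (i : Fin n) (q : Y) (h : JoinedIn (range f.1 \ {f.1 i})ᶜ (f.1 i) q) :
    ∃ g : Conf Y n, range g.1 = insert q (range f.1 \ {f.1 i}) ∧ Joined (mk f) (mk g) := by
  classical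
  obtain ⟨γ, hγ⟩ := h
  have hinj : ∀ y : Y, y ∈ (range f.1 \ {f.1 i})ᶜ → Function.Injective (Function.update f.1 i y) := by
    intro y hy a b hab
    by_cases ha : a = i <;> by_cases hb : b = i
    · rw [ha, hb]
    · subst ha
      rw [Function.update_self, Function.update_of_ne hb] at hab
      exact absurd ⟨⟨b, hab.symm⟩, fun h => hb (f.2 (hab ▸ h))⟩ hy
    · subst hb
      rw [Function.update_self, Function.update_of_ne ha] at hab
      exact absurd ⟨⟨a, hab⟩, fun h => ha (f.2 (hab ▸ h))⟩ hy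
    · rw [Function.update_of_ne ha, Function.update_of_ne hb] at hab
      exact f.2 hab
  have hq : q ∈ (range f.1 \ {f.1 i})ᶜ := by simpa using hγ 1
  refine ⟨⟨Function.update f.1 i q, hinj q hq⟩, ?_, ?_⟩
  · ext y
    constructor
    · rintro ⟨a, rfl⟩
      by_cases ha : a = i
      · subst ha; simp
      · right
        simp only [Function.update_of_ne ha]
        exact ⟨⟨a, rfl⟩, fun h => ha (f.2 h)⟩
    · rintro (rfl | ⟨⟨a, rfl⟩, ha⟩)
      · exact ⟨i, by simp⟩
      · have ha' : a ≠ i := fun h => ha (by rw [h]; rfl)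
        exact ⟨a, by simp [Function.update_of_ne ha']⟩
  · refine ⟨⟨⟨fun t => mk ⟨Function.update f.1 i (γ t), hinj _ (hγ t)⟩, ?_⟩, ?_, ?_⟩⟩
    · refine mk_cont.comp (Continuous.subtype_mk ?_ _)
      exact continuous_const.update i γ.continuous
    · simp
    · simp

lemma hole [T1Space Y] [ConnectedSpace Y] [LocallyPathConnectedSpace Y]
    (f : Conf Y n) (p q : Y) (hp : p ∈ range f.1) (hq : q ∉ range f.1) :
    ∃ g : Conf Y n, range g.1 = insert q (range f.1 \ {p}) ∧ Joined (mk f) (mk g) := by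
  set Z : Set Y := insert q (range f.1) with hZ
  have hZf : Z.Finite := (Set.finite_range f.1).insert q
  let Good : Y → Prop := fun z => ∃ g : Conf Y n, range g.1 = Z \ {z} ∧ Joined (mk f) (mk g)
  have step : ∀ z z', z ∈ Z → z' ∈ Z → Good z → JoinedIn (Z \ {z, z'})ᶜ z' z → Good z' := by
    intro z z' hz hz' hg hj
    by_cases hzz : z' = z
    · rw [hzz]; exact hg
    obtain ⟨g, hg1, hg2⟩ := hg
    have hz'' : z' ∈ range g.1 := by rw [hg1]; exact ⟨hz', hzz⟩
    obtain ⟨i, hi⟩ := hz''
    have e : range g.1 \ {g.1 i} = Z \ {z, z'} := by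
      rw [hg1, hi]; ext y; simp only [mem_sdiff, mem_singleton_iff, mem_insert_iff]; tauto
    obtain ⟨g', h1, h2⟩ := move g i z (by rw [e, hi]; exact hj)
    refine ⟨g', ?_, hg2.trans h2⟩
    rw [h1, e]; ext y
    simp only [mem_sdiff, mem_singleton_iff, mem_insert_iff]
    constructor
    · rintro (rfl | ⟨h3, h4⟩)
      · exact ⟨hz, fun h => hzz h.symm⟩
      · exact ⟨h3, fun h => h4 (Or.inr h)⟩
    · rintro ⟨h3, h4⟩
      by_cases hy : y = z
      · exact Or.inl hy
      · exact Or.inr ⟨h3, fun h => h.elim hy h4⟩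
  let W : (Y → Prop) → Set Y := fun P => ⋃ z ∈ {z | z ∈ Z ∧ P z}, pathComponentIn (Z \ {z})ᶜ z
  have hWo : ∀ P, IsOpen (W P) := fun P => isOpen_biUnion fun z _ =>
    ((hZf.subset sdiff_subset).isClosed.isOpen_compl).pathComponentIn z
  have hmem : ∀ P x, x ∈ W P ↔ ∃ z, (z ∈ Z ∧ P z) ∧ JoinedIn (Z \ {z})ᶜ z x := by
    intro P x
    simp only [W, mem_iUnion, mem_ofPred_eq, exists_prop]
    rfl
  have hself : ∀ z, JoinedIn (Z \ {z})ᶜ z z := fun z => JoinedIn.refl (by simp)
  have hclosed : IsClosed (W fun _ => True) := by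
    rw [← isOpen_compl_iff, isOpen_iff_forall_mem_open]
    intro x hx
    have hxZ : x ∉ Z := fun h => hx ((hmem _ _).2 ⟨x, ⟨h, trivial⟩, hself x⟩)
    refine ⟨pathComponentIn Zᶜ x, ?_, hZf.isClosed.isOpen_compl.pathComponentIn x,
      JoinedIn.refl hxZ⟩
    intro y hy hyW
    obtain ⟨z, hz, hj⟩ := (hmem _ _).1 hyW
    have hy' : JoinedIn Zᶜ x y := hy
    exact hx ((hmem _ _).2 ⟨z, hz, hj.trans (hy'.symm.mono (compl_subset_compl.2 sdiff_subset))⟩)
  have hcompl : (W Good)ᶜ = W (fun z => ¬ Good z) ∪ (W fun _ => True)ᶜ := by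
    ext x
    simp only [mem_compl_iff, mem_union]
    constructor
    · intro hx
      by_cases hT : x ∈ W fun _ => True
      · left
        obtain ⟨z, hz, hj⟩ := (hmem _ _).1 hT
        exact (hmem _ _).2 ⟨z, ⟨hz.1, fun hg => hx ((hmem _ _).2 ⟨z, ⟨hz.1, hg⟩, hj⟩)⟩, hj⟩
      · exact Or.inr hT
    · rintro (h | h) hx
      · obtain ⟨z, hz, hj⟩ := (hmem _ _).1 hx
        obtain ⟨z', hz', hj'⟩ := (hmem _ _).1 h
        refine hz'.2 (step z z' hz.1 hz'.1 hz.2 ?_)
        refine (hj'.mono (compl_subset_compl.2 ?_)).trans (hj.symm.mono (compl_subset_compl.2 ?_))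
        · exact sdiff_subset_sdiff_right (by simp)
        · exact sdiff_subset_sdiff_right (by simp)
      · obtain ⟨z, hz, hj⟩ := (hmem _ _).1 hx
        exact h ((hmem _ _).2 ⟨z, ⟨hz.1, trivial⟩, hj⟩)
  have hclopen : IsClopen (W Good) := by
    refine ⟨?_, hWo _⟩
    rw [← isOpen_compl_iff, hcompl]
    exact (hWo _).union hclosed.isOpen_compl
  have hgq : Good q := by
    refine ⟨f, ?_, Joined.refl _⟩
    rw [hZ, insert_sdiff_self_of_notMem hq]
  have huniv : W Good = univ :=
    hclopen.eq_univ ⟨q, (hmem _ _).2 ⟨q, ⟨mem_insert _ _, hgq⟩, hself q⟩⟩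
  have hpW : p ∈ W Good := by rw [huniv]; trivial
  obtain ⟨z, hz, hj⟩ := (hmem _ _).1 hpW
  have hpz : p = z := by
    by_contra hne
    exact hj.target_mem ⟨mem_insert_of_mem _ hp, hne⟩
  obtain ⟨g, hg1, hg2⟩ := hz.2
  refine ⟨g, ?_, hg2⟩
  rw [hg1, ← hpz, hZ]
  have hqp : q ≠ p := fun h => hq (h ▸ hp)
  ext y
  simp only [mem_sdiff, mem_singleton_iff, mem_insert_iff]
  constructor
  · rintro ⟨rfl | h, h'⟩
    · exact Or.inl rfl
    · exact Or.inr ⟨h, h'⟩
  · rintro (rfl | ⟨h, h'⟩)
    · exact ⟨Or.inl rfl, hqp⟩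
    · exact ⟨Or.inr h, h'⟩

lemma UC_joined [T1Space Y] [ConnectedSpace Y] [LocallyPathConnectedSpace Y]
    (a b : UC Y n) : Joined a b := by
  obtain ⟨f, rfl⟩ := mk_surj a
  obtain ⟨g, rfl⟩ := mk_surj b
  have key : ∀ k : ℕ, ∀ f : Conf Y n, (range f.1 \ range g.1).ncard = k → Joined (mk f) (mk g) := by
    intro k
    have hcard : ∀ f : Conf Y n, (range f.1).ncard = n := fun f => by
      rw [Set.ncard_range_of_injective f.2]; simp
    induction k with
    | zero =>
      intro f hf
      rw [Set.ncard_eq_zero ((Set.finite_range f.1).subset sdiff_subset), sdiff_eq_empty] at hf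
      have : range f.1 = range g.1 :=
        Set.eq_of_subset_of_ncard_le hf (by rw [hcard, hcard]) (Set.finite_range _)
      rw [(mk_eq_iff_range f g).2 this]
    | succ k ih =>
      intro f hf
      obtain ⟨p, hp⟩ : (range f.1 \ range g.1).Nonempty :=
        Set.nonempty_of_ncard_ne_zero (by omega)
      have hns : ¬ range g.1 ⊆ range f.1 := by
        intro h
        have : range g.1 = range f.1 :=
          Set.eq_of_subset_of_ncard_le h (by rw [hcard, hcard]) (Set.finite_range _)
        exact hp.2 (this ▸ hp.1)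
      obtain ⟨q, hq1, hq2⟩ := Set.not_subset.1 hns
      obtain ⟨f', h1, h2⟩ := hole f p q hp.1 hq2
      refine h2.trans (ih f' ?_)
      have e : range f'.1 \ range g.1 = (range f.1 \ range g.1) \ {p} := by
        rw [h1]; ext y
        simp only [mem_sdiff, mem_singleton_iff, mem_insert_iff]
        constructor
        · rintro ⟨rfl | h, h'⟩
          · exact absurd hq1 h'
          · exact ⟨⟨h.1, h'⟩, h.2⟩
        · rintro ⟨⟨h, h'⟩, h''⟩
          exact ⟨Or.inr ⟨h, h''⟩, h'⟩
      rw [e, Set.ncard_sdiff_singleton_of_mem hp, hf]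
      rfl
  exact key _ f rfl

end Pool.Agent.H56Z.GB
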