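import Mathlib
import Pool.Agent.H56Z.GB.Conf

set_option autoImplicit false

/-! Adding a marked point that avoids a configuration isotopic to the given one embeds the
fundamental group of the unordered configuration space into the next one. -/

open Set Topology unitInterval

namespace Pool.Agent.H56Z.GB

lemma square {Z : Type} [TopologicalSpace Z] {x y : Z} (γ : Path x x) (γ' : Path y y)
    (δ : Path x y) (K : C(I × I, Z)) (h0 : ∀ s, K (0, s) = γ s) (h1 : ∀ s, K (1, s) = γ' s)
    (hl : ∀ t, K (t, 0) = δ t) (hr : ∀ t, K (t, 1) = δ t) :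
    (γ.trans δ).Homotopic (δ.trans γ') := by
  set p₁ : Path ((0, 0) : I × I) (1, 1) := .prod (.trans (.refl _) .id) (.trans .id (.refl _))
  set p₂ : Path ((0, 0) : I × I) (1, 1) := .prod (.trans .id (.refl _)) (.trans (.refl _) .id)
  set Fsq : p₁.Homotopy p₂ :=
    Path.Homotopic.prodHomotopy (.trans (.reflTrans _) (.symm <| .transRefl _))
      (.trans (.transRefl _) (.symm <| .reflTrans _))
  have e0 : x = K (0, 0) := by rw [h0]; simp
  have e1 : y = K (1, 1) := by rw [h1]; simp
  refine ⟨((Fsq.map K).pathCast e0 e1).cast ?hp ?hq⟩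
  · ext s
    simp only [p₁, Path.trans_apply, Path.cast_coe, Path.map_coe, Function.comp_apply,
      Path.prod_coe]
    split_ifs <;> simp [h0, hr]
  · ext s
    simp only [p₂, Path.trans_apply, Path.cast_coe, Path.map_coe, Function.comp_apply,
      Path.prod_coe]
    split_ifs <;> simp [h1, hl]

lemma loop_trivial {Z : Type} [TopologicalSpace Z] {x y : Z} (γ : Path x x) (γ' : Path y y)
    (δ : Path x y) (K : C(I × I, Z)) (h0 : ∀ s, K (0, s) = γ s) (h1 : ∀ s, K (1, s) = γ' s)
    (hl : ∀ t, K (t, 0) = δ t) (hr : ∀ t, K (t, 1) = δ t)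
    (h : γ'.Homotopic (Path.refl y)) : γ.Homotopic (Path.refl x) := by
  have h2 := square γ γ' δ K h0 h1 hl hr
  have h3 : (γ.trans δ).Homotopic δ :=
    h2.trans (((Path.Homotopic.refl δ).hcomp h).trans ⟨Path.Homotopy.transRefl δ⟩)
  have h4 : ((γ.trans δ).trans δ.symm).Homotopic (δ.trans δ.symm) :=
    h3.hcomp (Path.Homotopic.refl _)
  have h5 : (δ.trans δ.symm).Homotopic (Path.refl x) := ⟨(Path.Homotopy.reflTransSymm δ).symm⟩
  have h6 : ((γ.trans δ).trans δ.symm).Homotopic (γ.trans (δ.trans δ.symm)) :=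
    ⟨Path.Homotopy.transAssoc _ _ _⟩
  have h7 : (γ.trans (δ.trans δ.symm)).Homotopic γ :=
    ((Path.Homotopic.refl γ).hcomp h5).trans ⟨Path.Homotopy.transRefl γ⟩
  exact (h6.trans h7).symm.trans (h4.trans h5)

/-- criterion for injectivity of the induced map -/
lemma inj_crit {A B : Type} [TopologicalSpace A] [TopologicalSpace B] (F : C(A, B)) (x : A)
    (h : ∀ γ : Path x x, (γ.map F.continuous).Homotopic (Path.refl (F x)) →
      γ.Homotopic (Path.refl x)) : Function.Injective (FundamentalGroup.map F x) := by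
  rw [injective_iff_map_eq_one]
  intro p hp
  obtain ⟨γ, rfl⟩ := Path.Homotopic.Quotient.mk_surjective p
  have hp' : Path.Homotopic.Quotient.mk (γ.map F.continuous)
      = Path.Homotopic.Quotient.mk (Path.refl (F x)) := hp
  rw [Path.Homotopic.Quotient.eq] at hp'
  exact Path.Homotopic.Quotient.eq.2 (h γ hp')

variable {Y : Type} [TopologicalSpace Y] {n : ℕ}

/-- a loop of unordered configurations lifts to a path of ordered ones -/
lemma lift_loop [T2Space Y] (f : Conf Y n) (γ : Path (mk f) (mk f)) :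
    ∃ c : C(I, Conf Y n), c 0 = f ∧ ∀ s, mk (c s) = γ s := by
  obtain ⟨c, h1, h2⟩ := (mk_cov (Y := Y) (n := n)).exists_path_lifts γ f γ.source
  exact ⟨c, h2, fun s => congrFun h1 s⟩

/-- if the projection of a path of ordered configurations is a null-homotopic loop, the path is
null-homotopic -/
lemma lift_null [T2Space Y] (c : C(I, Conf Y n)) (x : UC Y n) (γ : Path x x)
    (h : ∀ s, mk (c s) = γ s) (hγ : γ.Homotopic (Path.refl x)) :
    c.HomotopicRel (ContinuousMap.const I (c 0)) {0, 1} := by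
  refine ((mk_cov (Y := Y) (n := n)).homotopicRel_iff_comp (f₀ := c)
    (f₁ := ContinuousMap.const I (c 0)) (S := {0, 1}) ⟨0, Or.inl rfl, rfl⟩).2 ?_
  have e1 : (ContinuousMap.comp ⟨mk, (mk_cov (Y := Y) (n := n)).continuous⟩ c)
      = γ.toContinuousMap := by
    ext s; exact h s
  have e2 : (ContinuousMap.comp ⟨mk, (mk_cov (Y := Y) (n := n)).continuous⟩
      (ContinuousMap.const I (c 0))) = (Path.refl x).toContinuousMap := by
    ext s
    show mk (c 0) = x
    rw [h 0]; simp
  rw [e1, e2]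
  exact hγ

/-- forgetting the first point -/
def tail (f : Conf Y (n + 1)) : Conf Y n :=
  ⟨fun i => f.1 i.succ, f.2.comp (Fin.succ_injective n)⟩

lemma tail_cont : Continuous (tail : Conf Y (n + 1) → Conf Y n) :=
  Continuous.subtype_mk (continuous_pi fun _ => coord_cont _) _

theorem ghost [T2Space Y] (H : C(I × Conf Y n, Conf Y n)) (H0 : ∀ f, H (0, f) = f)
    (Heq : ∀ t f g, mk f = mk g → mk (H (t, f)) = mk (H (t, g)))
    (G : C(Conf Y n, Y)) (Geq : ∀ f g, mk f = mk g → G f = G g)
    (hG : ∀ f, G f ∉ range (H (1, f)).1) (x : UC Y n) :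
    ∃ (y : UC Y (n + 1)) (φ : FundamentalGroup (UC Y n) x →* FundamentalGroup (UC Y (n + 1)) y),
      Function.Injective φ := by
  let Ft : Conf Y n → Conf Y (n + 1) := fun f =>
    ⟨Fin.cons (G f) (H (1, f)).1, Fin.cons_injective_iff.2 ⟨hG f, (H (1, f)).2⟩⟩
  have hH1 : Continuous fun f : Conf Y n => H (1, f) :=
    H.continuous.comp (continuous_const.prodMk continuous_id)
  have hFt : Continuous Ft := by
    refine Continuous.subtype_mk (continuous_pi fun i => ?_) _
    refine Fin.cases ?_ (fun j => ?_) i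
    · simpa using G.continuous
    · exact (coord_cont j).comp hH1
  have hdesc : ∀ f g : Conf Y n, mk f = mk g → mk (Ft f) = mk (Ft g) := by
    intro f g h
    rw [mk_eq_iff_range]
    simp only [Ft, Fin.range_cons]
    rw [Geq f g h, (mk_eq_iff_range _ _).1 (Heq 1 f g h)]
  let F : C(UC Y n, UC Y (n + 1)) :=
    ⟨Quot.lift (fun f => mk (Ft f)) (fun f g h => hdesc f g (Quot.sound h)),
      continuous_quot_lift _ (mk_cont.comp hFt)⟩
  refine ⟨F x, FundamentalGroup.map F x, inj_crit F x ?_⟩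
  obtain ⟨f, rfl⟩ := mk_surj x
  intro γ hγ
  obtain ⟨c, hc0, hc⟩ := lift_loop f γ
  have h1 := lift_null (ContinuousMap.comp ⟨Ft, hFt⟩ c) (F (mk f)) (γ.map F.continuous)
    (fun s => by
      show mk (Ft (c s)) = F (γ s)
      rw [← hc s]; rfl) hγ
  have h2 := h1.map fun K => K.compContinuousMap
    (⟨fun g => mk (tail g), mk_cont.comp tail_cont⟩ : C(Conf Y (n + 1), UC Y n))
  have hc1 : mk (c 1) = mk f := by rw [hc 1]; simp
  let γ' : Path (mk (H (1, f))) (mk (H (1, f))) :=
    ⟨⟨fun s => mk (H (1, c s)), mk_cont.comp (hH1.comp c.continuous)⟩, by simp [hc0],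
      Heq 1 _ _ hc1⟩
  let δ : Path (mk f) (mk (H (1, f))) :=
    ⟨⟨fun t => mk (H (t, f)), mk_cont.comp (H.continuous.comp
      (continuous_id.prodMk continuous_const))⟩, by simp [H0], rfl⟩
  refine loop_trivial γ γ' δ ⟨fun p => mk (H (p.1, c p.2)), mk_cont.comp (H.continuous.comp
    (continuous_fst.prodMk (c.continuous.comp continuous_snd)))⟩ ?_ ?_ ?_ ?_ ?_
  · intro s
    show mk (H (0, c s)) = γ s
    rw [H0, hc]
  · intro s; rfl
  · intro t
    show mk (H (t, c 0)) = mk (H (t, f))
    rw [hc0]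
  · intro t
    exact Heq t _ _ hc1
  · have e1 : γ'.toContinuousMap = ContinuousMap.comp
        (⟨fun g => mk (tail g), mk_cont.comp tail_cont⟩ : C(Conf Y (n + 1), UC Y n))
        (ContinuousMap.comp ⟨Ft, hFt⟩ c) := by
      ext s; rfl
    have e2 : (Path.refl (mk (H (1, f)))).toContinuousMap = ContinuousMap.comp
        (⟨fun g => mk (tail g), mk_cont.comp tail_cont⟩ : C(Conf Y (n + 1), UC Y n))
        (ContinuousMap.const I ((ContinuousMap.comp ⟨Ft, hFt⟩ c) 0)) := by
      ext s
      show mk (H (1, f)) = mk (H (1, c 0))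
      rw [hc0]
    show γ'.toContinuousMap.HomotopicRel (Path.refl (mk (H (1, f)))).toContinuousMap {0, 1}
    rw [e1, e2]
    exact h2

/-- the embedding relation between configuration spaces -/
def Emb (Y : Type) [TopologicalSpace Y] (m n : ℕ) : Prop :=
  ∀ (x : UC Y m) (y : UC Y n),
    ∃ φ : FundamentalGroup (UC Y m) x →* FundamentalGroup (UC Y n) y, Function.Injective φ

lemma emb_of_exists [T1Space Y] [ConnectedSpace Y] [LocallyPathConnectedSpace Y] {m : ℕ}
    (h : ∀ x : UC Y m, ∃ (y : UC Y n)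
      (φ : FundamentalGroup (UC Y m) x →* FundamentalGroup (UC Y n) y), Function.Injective φ) :
    Emb Y m n := by
  intro x y
  obtain ⟨y', φ, hφ⟩ := h x
  let e := FundamentalGroup.fundamentalGroupMulEquivOfPath (UC_joined y' y).somePath
  exact ⟨e.toMonoidHom.comp φ, e.injective.comp hφ⟩

lemma emb_of_step [T1Space Y] [ConnectedSpace Y] [LocallyPathConnectedSpace Y]
    (h : ∀ k, ∀ x : UC Y k, ∃ (y : UC Y (k + 1))
      (φ : FundamentalGroup (UC Y k) x →* FundamentalGroup (UC Y (k + 1)) y),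
        Function.Injective φ) {m : ℕ} (hmn : m ≤ n) : Emb Y m n := by
  refine emb_of_exists ?_
  induction n, hmn using Nat.le_induction with
  | base => exact fun x => ⟨x, MonoidHom.id _, Function.injective_id⟩
  | succ k _ ih =>
    intro x
    obtain ⟨y, φ, hφ⟩ := ih x
    obtain ⟨z, ψ, hψ⟩ := h k y
    exact ⟨z, ψ.comp φ, hψ.comp hφ⟩

end Pool.Agent.H56Z.GB
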