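import Mathlib
import Pool.Agent.H56Z.GB.Ghost

set_option autoImplicit false

/-! The line and the circle. -/

open Set Topology unitInterval

namespace Pool.Agent.H56Z.GB

variable {Y : Type} [TopologicalSpace Y] {n m : ℕ}

theorem step_line [T2Space Y] (e : Y ≃ₜ ℝ) (x : UC Y n) :
    ∃ (y : UC Y (n + 1)) (φ : FundamentalGroup (UC Y n) x →* FundamentalGroup (UC Y (n + 1)) y),
      Function.Injective φ := by
  refine ghost ⟨Prod.snd, continuous_snd⟩ (fun _ => rfl) (fun _ _ _ h => h)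
    ⟨fun f => e.symm (1 + ∑ i, |e (f.1 i)|), e.symm.continuous.comp (continuous_const.add
      (continuous_finset_sum _ fun i _ => (e.continuous.comp (coord_cont i)).abs))⟩ ?_ ?_ x
  · intro f g h
    obtain ⟨π, hπ⟩ := (mk_eq_iff f g).1 h
    show e.symm _ = e.symm _
    congr 2
    rw [hπ]
    exact (Equiv.sum_comp π fun i => |e (f.1 i)|).symm
  · rintro f ⟨i, hi⟩
    have hi' : f.1 i = e.symm (1 + ∑ i, |e (f.1 i)|) := hi
    have h1 : e (f.1 i) = 1 + ∑ i, |e (f.1 i)| := by rw [hi']; simp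
    have h2 : |e (f.1 i)| ≤ ∑ i, |e (f.1 i)| :=
      Finset.single_le_sum (f := fun i => |e (f.1 i)|) (fun _ _ => abs_nonneg _)
        (Finset.mem_univ i)
    linarith [le_abs_self (e (f.1 i))]

lemma coe_eq_iff (a b : ℝ) : (a : AddCircle (1 : ℝ)) = b ↔ ∃ z : ℤ, a - b = z := by
  rw [← sub_eq_zero, ← AddCircle.coe_sub, AddCircle.coe_eq_zero_iff]
  simp [eq_comm]

lemma floor_const (u : I → ℝ) (hu : Continuous u) (h : ∀ s (z : ℤ), u s ≠ z) (s : I) :
    ⌊u s⌋ = ⌊u 0⌋ := by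
  have key : ∀ a b : I, ⌊u a⌋ ≤ ⌊u b⌋ := by
    intro a b
    by_contra hc
    push Not at hc
    have h1 : u b ≤ (⌊u a⌋ : ℝ) := (Int.floor_lt.1 hc).le
    obtain ⟨c, hc'⟩ := intermediate_value_univ b a hu ⟨h1, Int.floor_le _⟩
    exact h c _ hc'
  exact le_antisymm (key _ _) (key _ _)

lemma count_lt (a : Fin m → ℝ) (s s' : ℝ) (h : s < s') (j : Fin m) (z : ℤ) (hz : s' - a j = z) :
    ∑ i, ⌊s - a i⌋ < ∑ i, ⌊s' - a i⌋ := by
  refine Finset.sum_lt_sum (fun i _ => Int.floor_le_floor (by linarith)) ⟨j, Finset.mem_univ _, ?_⟩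
  rw [hz, Int.floor_intCast, Int.floor_lt]
  linarith

lemma endpoint (a b : Fin m → ℝ) (π : Equiv.Perm (Fin m)) (z : Fin m → ℤ)
    (hz : ∀ i, b i - a (π i) = z i) (hsum : ∑ i, b i = ∑ i, a i)
    (hfl : ∀ i j, ⌊b i - b j⌋ = ⌊a i - a j⌋) (i : Fin m) : b i = a i := by
  have h0 : ∑ i, z i = 0 := by
    have : ((∑ i, z i : ℤ) : ℝ) = 0 := by
      push_cast
      simp only [← hz, Finset.sum_sub_distrib, hsum, Equiv.sum_comp π a, sub_self]
    exact_mod_cast this
  have h1 : ∀ s : ℝ, ∑ j, ⌊s - b j⌋ = ∑ j, ⌊s - a j⌋ := by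
    intro s
    have : ∀ j, ⌊s - b j⌋ = ⌊s - a (π j)⌋ - z j := by
      intro j
      rw [← Int.floor_sub_intCast, ← hz]
      congr 1; ring
    simp only [this, Finset.sum_sub_distrib, h0, sub_zero]
    exact Equiv.sum_comp π fun j => ⌊s - a j⌋
  have h2 : ∑ j, ⌊b i - a j⌋ = ∑ j, ⌊a i - a j⌋ := by
    rw [← h1]; simp only [hfl]
  rcases lt_trichotomy (b i) (a i) with h | h | h
  · have := count_lt a _ _ h i 0 (by simp)
    omega
  · exact h
  · have := count_lt a _ _ h (π i) (z i) (hz i)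
    omega

lemma not_int_of_floor {u v t : ℝ} (hu : ∀ z : ℤ, u ≠ z) (hv : ∀ z : ℤ, v ≠ z)
    (h : ⌊u⌋ = ⌊v⌋) (t0 : 0 ≤ t) (t1 : t ≤ 1) (z : ℤ) : (1 - t) * u + t * v ≠ z := by
  have a1 : (⌊u⌋ : ℝ) < u := lt_of_le_of_ne (Int.floor_le u) (hu _).symm
  have a2 : (⌊u⌋ : ℝ) < v := h ▸ lt_of_le_of_ne (Int.floor_le v) (hv _).symm
  have a3 : u < ⌊u⌋ + 1 := Int.lt_floor_add_one u
  have a4 : v < ⌊u⌋ + 1 := h ▸ Int.lt_floor_add_one v
  intro e
  have b1 : (⌊u⌋ : ℝ) < z := by
    rw [← e]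
    rcases le_total u v with h' | h' <;> nlinarith
  have b2 : (z : ℝ) < ⌊u⌋ + 1 := by
    rw [← e]
    rcases le_total u v with h' | h' <;> nlinarith
  have c1 : ⌊u⌋ < z := by exact_mod_cast b1
  have c2 : z < ⌊u⌋ + 1 := by exact_mod_cast b2
  omega

theorem emb_circle [T2Space Y] (e : Y ≃ₜ AddCircle (1 : ℝ)) (x : UC Y m) :
    ∃ (y : UC Y (n + 1)) (φ : FundamentalGroup (UC Y m) x →* FundamentalGroup (UC Y (n + 1)) y),
      Function.Injective φ := by
  have cov : IsCoveringMap ((↑) : ℝ → AddCircle (1 : ℝ)) := AddCircle.isCoveringMap_coe 1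
  let St : Conf Y m → AddCircle (1 : ℝ) := fun f => ∑ i, e (f.1 i)
  have hSt : Continuous St := continuous_finset_sum _ fun i _ => e.continuous.comp (coord_cont i)
  let S : C(UC Y m, AddCircle (1 : ℝ)) :=
    ⟨Quot.lift St (by
      rintro f g ⟨π, hπ⟩
      simp only [St, hπ]
      exact (Equiv.sum_comp π fun i => e (f.1 i)).symm), continuous_quot_lift _ hSt⟩
  have hinj : ∀ a : AddCircle (1 : ℝ), Function.Injective fun j : Fin (n + 1) =>
      e.symm (a + (((j : ℝ) / (n + 1) : ℝ) : AddCircle (1 : ℝ))) := by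
    intro a j k h
    have h1 := add_left_cancel (e.symm.injective h)
    have hpos : (0 : ℝ) < n + 1 := by positivity
    have hb : ∀ j : Fin (n + 1), (j : ℝ) / (n + 1) ∈ Ico (0 : ℝ) (0 + 1) := by
      intro j
      refine ⟨by positivity, ?_⟩
      rw [zero_add, div_lt_one hpos]
      exact_mod_cast j.2
    rw [AddCircle.coe_eq_coe_iff_of_mem_Ico (hb j) (hb k), div_left_inj' hpos.ne'] at h1
    exact Fin.ext (by exact_mod_cast h1)
  let Φ : C(AddCircle (1 : ℝ), Conf Y (n + 1)) :=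
    ⟨fun a => ⟨_, hinj a⟩, Continuous.subtype_mk (continuous_pi fun j =>
      e.symm.continuous.comp (continuous_id.add continuous_const)) _⟩
  let F : C(UC Y m, UC Y (n + 1)) := ⟨fun u => mk (Φ (S u)),
    mk_cont.comp (Φ.continuous.comp S.continuous)⟩
  refine ⟨F x, FundamentalGroup.map F x, inj_crit F x ?_⟩
  obtain ⟨f, rfl⟩ := mk_surj x
  intro γ hγ
  obtain ⟨c, hc0, hc⟩ := lift_loop f γ
  have h1 := lift_null (Φ.comp (S.comp γ.toContinuousMap)) (F (mk f)) (γ.map F.continuous)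
    (fun s => rfl) hγ
  have h2 := h1.map fun K => K.compContinuousMap
    (⟨fun g => e (g.1 0), e.continuous.comp (coord_cont 0)⟩ :
      C(Conf Y (n + 1), AddCircle (1 : ℝ)))
  have hl : ∀ i : Fin m, ∃ w : C(I, ℝ), ∀ s, (w s : AddCircle (1 : ℝ)) = e ((c s).1 i) := by
    intro i
    obtain ⟨a, ha⟩ := QuotientAddGroup.mk_surjective (e ((c 0).1 i))
    obtain ⟨w, hw, _⟩ := cov.exists_path_lifts
      ⟨fun s => e ((c s).1 i), e.continuous.comp ((coord_cont i).comp c.continuous)⟩ a ha.symm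
    exact ⟨w, fun s => congrFun hw s⟩
  choose w hw using hl
  let L : C(I, ℝ) := ⟨fun s => ∑ i, w i s, continuous_finset_sum _ fun i _ => (w i).continuous⟩
  have hL : ∀ s, (L s : AddCircle (1 : ℝ)) = S (γ s) := by
    intro s
    rw [← hc s]
    show ((∑ i, w i s : ℝ) : AddCircle (1 : ℝ)) = ∑ i, e ((c s).1 i)
    rw [QuotientAddGroup.mk_sum]
    simp only [hw]
  have h3 : L.HomotopicRel (ContinuousMap.const I (L 0)) {0, 1} := by
    refine (cov.homotopicRel_iff_comp (f₀ := L) (f₁ := ContinuousMap.const I (L 0))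
      (S := {0, 1}) ⟨0, Or.inl rfl, rfl⟩).2 ?_
    have e1 : ContinuousMap.comp ⟨_, cov.continuous⟩ L = ContinuousMap.comp
        (⟨fun g => e (g.1 0), e.continuous.comp (coord_cont 0)⟩ :
          C(Conf Y (n + 1), AddCircle (1 : ℝ))) (Φ.comp (S.comp γ.toContinuousMap)) := by
      ext s
      show (L s : AddCircle (1 : ℝ)) = e (e.symm _)
      simp [hL]
    have e2 : ContinuousMap.comp ⟨_, cov.continuous⟩ (ContinuousMap.const I (L 0))
        = ContinuousMap.comp
        (⟨fun g => e (g.1 0), e.continuous.comp (coord_cont 0)⟩ :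
          C(Conf Y (n + 1), AddCircle (1 : ℝ)))
          (ContinuousMap.const I ((Φ.comp (S.comp γ.toContinuousMap)) 0)) := by
      ext s
      show (L 0 : AddCircle (1 : ℝ)) = e (e.symm _)
      simp [hL]
    rw [e1, e2]
    exact h2
  have hsum : ∑ i, w i 1 = ∑ i, w i 0 := h3.fst_eq_snd (x := 1) (Or.inr rfl)
  have hni : ∀ i j, i ≠ j → ∀ s (z : ℤ), w i s - w j s ≠ z := by
    intro i j hij s z h
    have := (coe_eq_iff _ _).2 ⟨z, h⟩
    rw [hw, hw] at this
    exact hij ((c s).2 (e.injective this))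
  have hfl : ∀ s i j, ⌊w i s - w j s⌋ = ⌊w i 0 - w j 0⌋ := by
    intro s i j
    by_cases hij : i = j
    · simp [hij]
    · exact floor_const (fun s => w i s - w j s) ((w i).continuous.sub (w j).continuous)
        (hni i j hij) s
  have hc1 : mk (c 0) = mk (c 1) := by rw [hc 0, hc 1]; simp
  obtain ⟨π, hπ⟩ := (mk_eq_iff _ _).1 hc1
  have hz : ∀ i, ∃ z : ℤ, w i 1 - w (π i) 0 = z := by
    intro i
    rw [← coe_eq_iff, hw, hw, hπ]
    rfl
  choose z hz using hz
  have hend := endpoint (fun i => w i 0) (fun i => w i 1) π z hz hsum (hfl 1)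
  have hK : ∀ (t s : I), Function.Injective fun i : Fin m =>
      e.symm ((((1 - t) * w i s + t * w i 0 : ℝ)) : AddCircle (1 : ℝ)) := by
    intro t s i j h
    by_contra hij
    obtain ⟨z, hz⟩ := (coe_eq_iff _ _).1 (e.symm.injective h)
    refine not_int_of_floor (hni i j hij s) (hni i j hij 0) (hfl s i j) t.2.1 t.2.2 z ?_
    rw [← hz]; ring
  have hcf : ∀ s (g : Conf Y m), (∀ i, g.1 i = e.symm (w i s : AddCircle (1 : ℝ))) → g = c s := by
    intro s g hg
    apply Subtype.ext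
    funext i
    rw [hg, hw]; simp
  refine ⟨⟨⟨⟨fun p => mk ⟨_, hK p.1 p.2⟩, mk_cont.comp (Continuous.subtype_mk
    (continuous_pi fun i => e.symm.continuous.comp (cov.continuous.comp ?_)) _)⟩, ?_, ?_⟩, ?_⟩⟩
  · have := (w i).continuous
    fun_prop
  · intro s
    show mk _ = γ s
    rw [← hc s]
    congr 1
    exact hcf s _ fun i => by simp
  · intro s
    show mk _ = mk f
    rw [← hc0]
    congr 1
    exact hcf 0 _ fun i => by simp
  · rintro t s (rfl | rfl)
    · show mk _ = γ 0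
      rw [← hc 0]
      congr 1
      refine hcf 0 _ fun i => ?_
      show e.symm _ = e.symm _
      congr 2; ring
    · show mk _ = γ 1
      rw [← hc 1]
      congr 1
      refine hcf 1 _ fun i => ?_
      show e.symm _ = e.symm _
      have : w i 1 = w i 0 := hend i
      congr 2
      rw [← this]; ring

end Pool.Agent.H56Z.GB
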