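import Mathlib

set_option autoImplicit false

/-! One-dimensional CW complexes described by vertices and half-edges. -/

open Set Topology unitInterval Metric

namespace Pool.Agent.H56Z.GB

/-- a topological graph, described by its vertices and parametrised half-edges -/
structure HG (Y : Type) [TopologicalSpace Y] where
  V : Type
  K : Type
  ν : V → Y
  P : K → ℝ → Y
  src : K → V
  bar : K → K
  ν_inj : Function.Injective ν
  cont : ∀ k, Continuous (P k)
  P0 : ∀ k, P k 0 = ν (src k)
  bar_ne : ∀ k, bar k ≠ k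
  bar_bar : ∀ k, bar (bar k) = k
  P1 : ∀ k, P (bar k) 1 = P k 1
  ne_ν : ∀ k s w, 0 < s → s ≤ 1 → P k s ≠ ν w
  inj : ∀ k k' s s', 0 < s → s ≤ 1 → 0 < s' → s' ≤ 1 → P k s = P k' s' →
    (k = k' ∧ s = s') ∨ (s = 1 ∧ s' = 1 ∧ k' = bar k)
  cover : ∀ p, (∃ w, ν w = p) ∨ ∃ k s, 0 < s ∧ s ≤ 1 ∧ P k s = p
  weak : ∀ A : Set Y, (∀ k, IsClosed ((fun s : I => P k s) ⁻¹' A)) → IsClosed A

section CW

variable {X : Type} [TopologicalSpace X] [T2Space X] {Γ : Set X} [CWComplex Γ]

open RelCWComplex

/-- the coordinate in the one-dimensional ball -/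
noncomputable def uu (b : Bool) (s : ℝ) : Fin 1 → ℝ :=
  fun _ => if b then 1 - max 0 (min s 1) else max 0 (min s 1) - 1

lemma uu_cont (b : Bool) : Continuous (uu b) := by
  unfold uu
  refine continuous_pi fun _ => ?_
  cases b <;> simp <;> fun_prop

lemma norm_fin1 (x : Fin 1 → ℝ) : ‖x‖ = |x 0| := by
  simp [Pi.norm_def]

lemma uu_eq (b : Bool) (s : ℝ) (h0 : 0 ≤ s) (h1 : s ≤ 1) :
    uu b s 0 = if b then 1 - s else s - 1 := by
  simp [uu, min_eq_left h1, max_eq_right h0]

lemma uu_closed (b : Bool) (s : ℝ) : uu b s ∈ closedBall (0 : Fin 1 → ℝ) 1 := by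
  rw [mem_closedBall_zero_iff, norm_fin1]
  have h1 : 0 ≤ max 0 (min s 1) := le_max_left _ _
  have h2 : max 0 (min s 1) ≤ 1 := max_le zero_le_one (min_le_right _ _)
  cases b <;> simp only [uu] <;> rw [abs_le] <;> constructor <;> simp

lemma uu_ball (b : Bool) (s : ℝ) (h0 : 0 < s) (h1 : s ≤ 1) :
    uu b s ∈ ball (0 : Fin 1 → ℝ) 1 := by
  rw [mem_ball_zero_iff, norm_fin1, uu_eq b s h0.le h1]
  cases b <;> rw [abs_lt] <;> constructor <;> simp <;> linarith

lemma uu_sphere (b : Bool) : uu b 0 ∈ sphere (0 : Fin 1 → ℝ) 1 := by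
  rw [mem_sphere_zero_iff_norm, norm_fin1, uu_eq b 0 le_rfl zero_le_one]
  cases b <;> simp

lemma uu_surj (x : Fin 1 → ℝ) (hx : |x 0| ≤ 1) :
    ∃ b s, 0 ≤ s ∧ s ≤ 1 ∧ uu b s = x ∧ (|x 0| < 1 → 0 < s) := by
  rw [abs_le] at hx
  rcases le_total 0 (x 0) with h | h
  · refine ⟨true, 1 - x 0, by linarith, by linarith, ?_, fun h' => by
      rw [abs_lt] at h'; linarith⟩
    funext i
    rw [Subsingleton.elim i 0, uu_eq _ _ (by linarith) (by linarith)]
    simp
  · refine ⟨false, 1 + x 0, by linarith, by linarith, ?_, fun h' => by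
      rw [abs_lt] at h'; linarith⟩
    funext i
    rw [Subsingleton.elim i 0, uu_eq _ _ (by linarith) (by linarith)]
    simp

omit [T2Space X] in
lemma src_ex (k : cell Γ 1 × Bool) :
    ∃ w : cell Γ 0, map 1 k.1 (uu k.2 0) = map 0 w ![] := by
  obtain ⟨J, hJ⟩ := CWComplex.cellFrontier_subset_finite_closedCell 1 k.1
  have h := hJ ⟨uu k.2 0, uu_sphere _, rfl⟩
  simp only [mem_iUnion] at h
  obtain ⟨m, hm, j, _, hj⟩ := h
  obtain rfl : m = 0 := by omega
  rw [closedCell_zero_eq_singleton] at hj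
  exact ⟨j, hj⟩

/-- the half-edge description of a CW complex without cells of dimension at least two -/
noncomputable def ofCW (h2 : ∀ k : ℕ, 2 ≤ k → IsEmpty (cell Γ k)) : HG Γ where
  V := cell Γ 0
  K := cell Γ 1 × Bool
  ν w := ⟨map 0 w ![], closedCell_subset_complex 0 w (map_zero_mem_closedCell 0 w |> fun h => by
    rw [closedCell_zero_eq_singleton]; rfl)⟩
  P k s := ⟨map 1 k.1 (uu k.2 s), closedCell_subset_complex 1 k.1 ⟨_, uu_closed _ _, rfl⟩⟩
  src k := (src_ex k).choose
  bar k := (k.1, !k.2)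
  ν_inj a b h := injective_map_zero Γ (congrArg Subtype.val h)
  cont k := Continuous.subtype_mk
    ((continuousOn 1 k.1).comp_continuous (uu_cont k.2) (uu_closed k.2)) _
  P0 k := Subtype.ext (src_ex k).choose_spec
  bar_ne k h := by
    have := congrArg Prod.snd h
    cases hk : k.2 <;> simp [hk] at this
  bar_bar k := by simp
  P1 k := by
    apply Subtype.ext
    have : uu (!k.2) 1 = uu k.2 1 := by
      funext i
      rw [Subsingleton.elim i 0, uu_eq _ _ zero_le_one le_rfl, uu_eq _ _ zero_le_one le_rfl]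
      simp
    simp only [this]
  ne_ν k s w h0 h1 h := by
    have h' : map 1 k.1 (uu k.2 s) = map 0 w ![] := congrArg Subtype.val h
    have hd := disjoint_openCell_of_ne (C := Γ) (i := k.1) (j := w)
      (fun e => absurd (congrArg Sigma.fst e) (by simp))
    have hm : map 1 k.1 (uu k.2 s) ∈ openCell 1 k.1 := ⟨_, uu_ball k.2 s h0 h1, rfl⟩
    refine Set.disjoint_left.1 hd hm ?_
    rw [openCell_zero_eq_singleton, h']
    rfl
  inj k k' s s' h0 h1 h0' h1' h := by
    have h' : map 1 k.1 (uu k.2 s) = map 1 k'.1 (uu k'.2 s') := congrArg Subtype.val h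
    obtain ⟨e, b⟩ := k
    obtain ⟨e', b'⟩ := k'
    have he : e = e' := by
      have := eq_of_not_disjoint_openCell (C := Γ) (j := e) (i := e')
        (Set.not_disjoint_iff.2 ⟨_, ⟨_, uu_ball _ _ h0 h1, rfl⟩, ⟨_, uu_ball _ _ h0' h1', h'.symm⟩⟩)
      simpa using this
    subst he
    have hu : uu b s = uu b' s' := by
      refine (map 1 e).injOn ?_ ?_ h'
      · rw [source_eq]; exact uu_ball _ _ h0 h1
      · rw [source_eq]; exact uu_ball _ _ h0' h1'
    have hu0 := congrFun hu 0
    rw [uu_eq _ _ h0.le h1, uu_eq _ _ h0'.le h1'] at hu0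
    cases b <;> cases b' <;> simp at hu0 ⊢
    · exact hu0
    · constructor <;> linarith
    · constructor <;> linarith
    · exact hu0
  cover p := by
    have hp : p.1 ∈ ⋃ (n : ℕ) (j : cell Γ n), openCell n j := by
      rw [CWComplex.iUnion_openCell_eq_complex]; exact p.2
    simp only [mem_iUnion] at hp
    obtain ⟨n, j, hj⟩ := hp
    rcases n with _ | _ | n
    · left
      rw [openCell_zero_eq_singleton] at hj
      exact ⟨j, Subtype.ext hj.symm⟩
    · right
      obtain ⟨x, hx, hx'⟩ := hj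
      rw [mem_ball_zero_iff, norm_fin1] at hx
      obtain ⟨b, s, _, hs1, hs, hs0⟩ := uu_surj x hx.le
      exact ⟨(j, b), s, hs0 hx, hs1, Subtype.ext (by simp only [hs]; exact hx')⟩
    · exact (h2 _ (by omega)).elim j
  weak A hA := by
    have hA' : IsClosed (Subtype.val '' A) := by
      rw [CWComplex.closed Γ _ (by rintro _ ⟨a, _, rfl⟩; exact a.2)]
      intro n j
      rcases n with _ | _ | n
      · rw [closedCell_zero_eq_singleton]
        exact ((Set.finite_singleton _).subset inter_subset_right).isClosed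
      · have hc : ∀ b : Bool, IsClosed ((fun s : I => map 1 j (uu b s)) ''
            ((fun s : I => (⟨map 1 j (uu b s),
              closedCell_subset_complex 1 j ⟨_, uu_closed _ _, rfl⟩⟩ : Γ)) ⁻¹' A)) := by
          intro b
          refine ((hA (j, b)).isCompact.image ?_).isClosed
          exact ((continuousOn 1 j).comp_continuous (uu_cont b) (uu_closed b)).comp
            continuous_subtype_val
        convert (hc true).union (hc false) using 1
        ext y
        constructor
        · rintro ⟨⟨a, ha, rfl⟩, x, hx, hx'⟩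
          rw [mem_closedBall_zero_iff, norm_fin1] at hx
          obtain ⟨b, s, hs0, hs1, hs, _⟩ := uu_surj x hx
          have : a.1 ∈ (fun s : I => map 1 j (uu b s)) ''
            ((fun s : I => (⟨map 1 j (uu b s),
              closedCell_subset_complex 1 j ⟨_, uu_closed _ _, rfl⟩⟩ : Γ)) ⁻¹' A) := by
            refine ⟨⟨s, hs0, hs1⟩, ?_, by simp only [hs]; exact hx'⟩
            have e : (⟨map 1 j (uu b s),
              closedCell_subset_complex 1 j ⟨_, uu_closed _ _, rfl⟩⟩ : Γ) = a :=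
              Subtype.ext (by simp only [hs]; exact hx')
            show (⟨map 1 j (uu b s), _⟩ : Γ) ∈ A
            rw [e]; exact ha
          cases b
          · exact Or.inr this
          · exact Or.inl this
        · rintro (⟨s, hs, rfl⟩ | ⟨s, hs, rfl⟩)
          · exact ⟨⟨_, hs, rfl⟩, _, uu_closed _ _, rfl⟩
          · exact ⟨⟨_, hs, rfl⟩, _, uu_closed _ _, rfl⟩
      · exact (h2 _ (by omega)).elim j
    have := hA'.preimage (continuous_subtype_val (p := fun x => x ∈ Γ))
    rwa [preimage_image_eq _ Subtype.val_injective] at this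

end CW

namespace HG

variable {Y : Type} [TopologicalSpace Y] (G : HG Y)

/-- the map from the disjoint union of the cells -/
def Q (x : Σ _ : G.V ⊕ G.K, I) : Y :=
  match x with
  | ⟨Sum.inl w, _⟩ => G.ν w
  | ⟨Sum.inr k, s⟩ => G.P k s

lemma Q_quot : IsQuotientMap G.Q := by
  rw [isQuotientMap_iff_isClosed]
  refine ⟨?_, fun A => ⟨fun hA => hA.preimage ?_, fun hA => G.weak A fun k => ?_⟩⟩
  · intro p
    rcases G.cover p with ⟨w, hw⟩ | ⟨k, s, h0, h1, h⟩
    · exact ⟨⟨Sum.inl w, 0⟩, hw⟩
    · exact ⟨⟨Sum.inr k, ⟨s, h0.le, h1⟩⟩, h⟩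
  · refine continuous_sigma ?_
    rintro (w | k)
    · exact continuous_const
    · exact (G.cont k).comp continuous_subtype_val
  · have hc : Continuous (fun s : I => (⟨Sum.inr k, s⟩ : Σ _ : G.V ⊕ G.K, I)) :=
      @continuous_sigmaMk (G.V ⊕ G.K) (fun _ => I) _ (Sum.inr k)
    exact hA.preimage hc

include G in
lemma lpc : LocallyPathConnectedSpace Y := by
  have : LocallyPathConnectedSpace I := (convex_Icc (0 : ℝ) 1).locallyPathConnectedSpace
  exact G.Q_quot.locallyPathConnectedSpace

lemma cont_param {T Z : Type} [TopologicalSpace T] [LocallyCompactSpace T] [TopologicalSpace Z]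
    (g : T × Y → Z) (hV : ∀ w, Continuous fun t => g (t, G.ν w))
    (hK : ∀ k, Continuous fun p : T × I => g (p.1, G.P k p.2)) : Continuous g := by
  refine G.Q_quot.continuous_lift_prod_right ?_
  have h : Continuous fun x : Σ _ : G.V ⊕ G.K, I × T => g (x.2.2, G.Q ⟨x.1, x.2.1⟩) := by
    refine continuous_sigma ?_
    rintro (w | k)
    · exact (hV w).comp continuous_snd
    · exact (hK k).comp continuous_swap
  exact (h.comp (Homeomorph.sigmaProdDistrib (X := fun _ : G.V ⊕ G.K => I)
    (Y := T)).continuous).comp continuous_swap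

lemma cont_of {Z : Type} [TopologicalSpace Z] (g : Y → Z)
    (hK : ∀ k, Continuous fun s : I => g (G.P k s)) : Continuous g :=
  continuous_iff_isClosed.2 fun _ hA => G.weak _ fun k => hA.preimage (hK k)

open Classical in
/-- a function on the graph given by its values on the vertices and along the half-edges -/
noncomputable def lift {Z : Type} (fV : G.V → Z) (fK : G.K → ℝ → Z) (p : Y) : Z :=
  if h : ∃ w, G.ν w = p then fV h.choose
  else fK ((G.cover p).resolve_left h).choose ((G.cover p).resolve_left h).choose_spec.choose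

lemma lift_ν {Z : Type} (fV : G.V → Z) (fK : G.K → ℝ → Z) (w : G.V) :
    G.lift fV fK (G.ν w) = fV w := by
  have h : ∃ w', G.ν w' = G.ν w := ⟨w, rfl⟩
  rw [lift, dif_pos h, G.ν_inj h.choose_spec]

lemma lift_P {Z : Type} (fV : G.V → Z) (fK : G.K → ℝ → Z) (c0 : ∀ k, fK k 0 = fV (G.src k))
    (c1 : ∀ k, fK (G.bar k) 1 = fK k 1) (k : G.K) (s : ℝ) (h0 : 0 ≤ s) (h1 : s ≤ 1) :
    G.lift fV fK (G.P k s) = fK k s := by
  rcases h0.eq_or_lt with h | h
  · rw [← h, G.P0, lift_ν, c0]
  · have hn : ¬ ∃ w, G.ν w = G.P k s := fun ⟨w, hw⟩ => G.ne_ν k s w h h1 hw.symm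
    rw [lift, dif_neg hn]
    obtain ⟨a0, a1, a2⟩ := ((G.cover _).resolve_left hn).choose_spec.choose_spec
    rcases G.inj _ _ _ _ h h1 a0 a1 a2.symm with ⟨e1, e2⟩ | ⟨e1, e2, e3⟩
    · rw [← e2, ← e1]
    · rw [e2, e3, e1, c1]

end HG

end Pool.Agent.H56Z.GB
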