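import Mathlib
import Pool.Agent.H56Z.GB.Graph

set_option autoImplicit false

/-! The local move near a vertex: a marked point sits at the vertex and steps aside when another
point passes. -/

open Set Topology unitInterval

namespace Pool.Agent.H56Z.GB

/-- positive part of the distance to the radius -/
noncomputable def mm (r s : ℝ) : ℝ := max (min r 1 - s) 0

lemma mm_cont : Continuous fun p : ℝ × ℝ => mm p.1 p.2 := by
  unfold mm; fun_prop

lemma mm_nonneg (r s : ℝ) : 0 ≤ mm r s := le_max_right _ _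

lemma mm_one (r : ℝ) : mm r 1 = 0 := max_eq_right (by linarith [min_le_right r 1])

lemma mm_far {r s : ℝ} (h : r ≤ s) : mm r s = 0 := max_eq_right (by linarith [min_le_left r 1])

lemma mm_near {r s : ℝ} (h : s ≤ r) (h1 : r ≤ 1) : mm r s = r - s := by
  unfold mm; rw [min_eq_left h1]; exact max_eq_left (by linarith)

namespace HG

variable {Y : Type} [TopologicalSpace Y] (G : HG Y) (k0 : G.K)

open Classical in
/-- distance to the chosen vertex, capped at one -/
noncomputable def dd : Y → ℝ :=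
  G.lift (fun w => if w = G.src k0 then 0 else 1) (fun k s => if G.src k = G.src k0 then s else 1)

/-- the path through the vertex from the base half-edge to another half-edge -/
noncomputable def Qk (k : G.K) (u : ℝ) : Y := if 0 ≤ u then G.P k u else G.P k0 (-u)

open Classical in
/-- the deformation of the graph -/
noncomputable def hh (r : ℝ) (t : I) : Y → Y :=
  G.lift (fun w => if w = G.src k0 then G.P k0 (t * mm r 0) else G.ν w)
    (fun k s => if G.src k = G.src k0 then
      (if k = k0 then G.P k0 (s + t * mm r s) else G.Qk k0 k (s - t * mm r s)) else G.P k s)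

open Classical in
/-- the position of the marked point -/
noncomputable def gg (j : G.K → G.K) (r : ℝ) : Y → Y :=
  G.lift (fun _ => G.ν (G.src k0))
    (fun k s => if G.src k = G.src k0 ∧ k ≠ k0 then G.P (j k) (s * mm r s) else G.ν (G.src k0))

open Classical in
lemma dd_P (k : G.K) (s : ℝ) (h0 : 0 ≤ s) (h1 : s ≤ 1) :
    G.dd k0 (G.P k s) = if G.src k = G.src k0 then s else 1 := by
  unfold dd
  rw [G.lift_P _ _ (fun k => rfl) (fun k => by simp) k s h0 h1]

open Classical in
lemma dd_ν (w : G.V) : G.dd k0 (G.ν w) = if w = G.src k0 then 0 else 1 := G.lift_ν _ _ w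

lemma dd_cont : Continuous (G.dd k0) := by
  refine G.cont_of _ fun k => ?_
  simp only [fun s : I => G.dd_P k0 k s s.2.1 s.2.2]
  split_ifs
  · exact continuous_subtype_val
  · exact continuous_const

lemma dd_bd (p : Y) : 0 ≤ G.dd k0 p ∧ G.dd k0 p ≤ 1 := by
  rcases G.cover p with ⟨w, rfl⟩ | ⟨k, s, h0, h1, rfl⟩
  · rw [dd_ν]; split_ifs <;> norm_num
  · rw [G.dd_P k0 k s h0.le h1]; split_ifs
    · exact ⟨h0.le, h1⟩
    · norm_num

lemma dd_lt (p : Y) (h : G.dd k0 p < 1) : ∃ k, G.src k = G.src k0 ∧ p = G.P k (G.dd k0 p) := by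
  rcases G.cover p with ⟨w, rfl⟩ | ⟨k, s, h0, h1, rfl⟩
  · rw [dd_ν] at h ⊢
    split_ifs at h ⊢ with hw
    · exact ⟨k0, rfl, by rw [G.P0, hw]⟩
    · exact absurd h (lt_irrefl _)
  · rw [G.dd_P k0 k s h0.le h1] at h ⊢
    split_ifs at h ⊢ with hw
    · exact ⟨k, hw, rfl⟩
    · exact absurd h (lt_irrefl _)

lemma dd_zero (p : Y) (h : G.dd k0 p = 0) : p = G.ν (G.src k0) := by
  obtain ⟨k, hk, hp⟩ := G.dd_lt k0 p (by rw [h]; norm_num)
  rw [hp, h, G.P0, hk]

lemma Qk_cont (k : G.K) (hk : G.src k = G.src k0) : Continuous (G.Qk k0 k) := by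
  unfold Qk
  refine Continuous.if_le (G.cont k) ((G.cont k0).comp continuous_neg) continuous_const
    continuous_id ?_
  intro u hu
  rw [← hu, neg_zero, G.P0, G.P0, hk]

lemma Qk_neg (k : G.K) (hk : G.src k = G.src k0) (u : ℝ) (hu : 0 ≤ u) :
    G.Qk k0 k (-u) = G.P k0 u := by
  unfold Qk
  split_ifs with h
  · have : u = 0 := by linarith
    rw [this, neg_zero, G.P0, G.P0, hk]
  · rw [neg_neg]

lemma Qk_pos (k : G.K) (u : ℝ) (hu : 0 ≤ u) : G.Qk k0 k u = G.P k u := if_pos hu

open Classical in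
lemma hh_P (r : ℝ) (t : I) (k : G.K) (s : ℝ) (h0 : 0 ≤ s) (h1 : s ≤ 1) :
    G.hh k0 r t (G.P k s) = if G.src k = G.src k0 then
      (if k = k0 then G.P k0 (s + t * mm r s) else G.Qk k0 k (s - t * mm r s)) else G.P k s := by
  unfold hh
  refine G.lift_P _ _ (fun k => ?_) (fun k => ?_) k s h0 h1
  · split_ifs with h h'
    · simp
    · rw [zero_sub, G.Qk_neg k0 k h _ (mul_nonneg t.2.1 (mm_nonneg _ _))]
    · exact G.P0 k
  · have key : ∀ k : G.K, (if G.src k = G.src k0 then
      (if k = k0 then G.P k0 (1 + t * mm r 1) else G.Qk k0 k (1 - t * mm r 1)) else G.P k 1)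
        = G.P k 1 := by
      intro k
      split_ifs with h h'
      · rw [mm_one, h']; simp
      · rw [mm_one, mul_zero, sub_zero, G.Qk_pos k0 k 1 zero_le_one]
      · rfl
    rw [key, key, G.P1]

open Classical in
lemma hh_ν (r : ℝ) (t : I) (w : G.V) :
    G.hh k0 r t (G.ν w) = if w = G.src k0 then G.P k0 (t * mm r 0) else G.ν w := G.lift_ν _ _ w

lemma hh_cont : Continuous fun x : (ℝ × I) × Y => G.hh k0 x.1.1 x.1.2 x.2 := by
  refine G.cont_param _ (fun w => ?_) (fun k => ?_)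
  · simp only [hh_ν]
    split_ifs
    · refine (G.cont k0).comp ?_
      exact (continuous_subtype_val.comp continuous_snd).mul
        (mm_cont.comp (continuous_fst.prodMk continuous_const))
    · exact continuous_const
  · simp only [fun (x : (ℝ × I) × I) => G.hh_P k0 x.1.1 x.1.2 k x.2 x.2.2.1 x.2.2.2]
    have hs : Continuous fun x : (ℝ × I) × I => (x.2 : ℝ) :=
      continuous_subtype_val.comp continuous_snd
    have hm : Continuous fun x : (ℝ × I) × I => (x.1.2 : ℝ) * mm x.1.1 x.2 :=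
      (continuous_subtype_val.comp (continuous_snd.comp continuous_fst)).mul
        (mm_cont.comp ((continuous_fst.comp continuous_fst).prodMk hs))
    split_ifs with h h'
    · exact (G.cont k0).comp (hs.add hm)
    · exact (G.Qk_cont k0 k h).comp (hs.sub hm)
    · exact (G.cont k).comp hs

variable (j : G.K → G.K)
  (hj : ∀ k, G.src k = G.src k0 → k ≠ k0 → G.src (j k) = G.src k0 ∧ j k ≠ k0 ∧ j k ≠ k)

include hj in
open Classical in
lemma gg_P (r : ℝ) (k : G.K) (s : ℝ) (h0 : 0 ≤ s) (h1 : s ≤ 1) :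
    G.gg k0 j r (G.P k s) =
      if G.src k = G.src k0 ∧ k ≠ k0 then G.P (j k) (s * mm r s) else G.ν (G.src k0) := by
  unfold gg
  refine G.lift_P _ _ (fun k => ?_) (fun k => ?_) k s h0 h1
  · split_ifs with h
    · rw [zero_mul, G.P0, (hj k h.1 h.2).1]
    · rfl
  · have key : ∀ k : G.K, (if G.src k = G.src k0 ∧ k ≠ k0 then G.P (j k) (1 * mm r 1)
        else G.ν (G.src k0)) = G.ν (G.src k0) := by
      intro k
      split_ifs with h
      · rw [mm_one, mul_zero, G.P0, (hj k h.1 h.2).1]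
      · rfl
    rw [key, key]

lemma gg_ν (r : ℝ) (w : G.V) : G.gg k0 j r (G.ν w) = G.ν (G.src k0) := G.lift_ν _ _ w

include hj in
lemma gg_cont : Continuous fun x : ℝ × Y => G.gg k0 j x.1 x.2 := by
  refine G.cont_param _ (fun w => ?_) (fun k => ?_)
  · simp only [gg_ν]; exact continuous_const
  · simp only [fun (x : ℝ × I) => G.gg_P k0 j hj x.1 k x.2 x.2.2.1 x.2.2.2]
    have hs : Continuous fun x : ℝ × I => (x.2 : ℝ) := continuous_subtype_val.comp continuous_snd
    split_ifs with h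
    · exact (G.cont _).comp (hs.mul (mm_cont.comp (continuous_fst.prodMk hs)))
    · exact continuous_const

lemma hh_zero (r : ℝ) (p : Y) : G.hh k0 r 0 p = p := by
  rcases G.cover p with ⟨w, rfl⟩ | ⟨k, s, h0, h1, rfl⟩
  · rw [hh_ν]
    split_ifs with h
    · simp [G.P0, h]
    · rfl
  · rw [G.hh_P k0 r 0 k s h0.le h1]
    split_ifs with h h'
    · simp [h']
    · simp [G.Qk_pos k0 k s h0.le]
    · rfl

lemma hh_far (r : ℝ) (t : I) (p : Y) (hr : 0 < r) (h : r ≤ G.dd k0 p) : G.hh k0 r t p = p := by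
  rcases G.cover p with ⟨w, rfl⟩ | ⟨k, s, h0, h1, rfl⟩
  · rw [dd_ν] at h
    rw [hh_ν]
    split_ifs at h ⊢ with hw
    · linarith
    · rfl
  · rw [G.dd_P k0 k s h0.le h1] at h
    rw [G.hh_P k0 r t k s h0.le h1]
    split_ifs at h ⊢ with hw h'
    · rw [mm_far h, h']; simp
    · rw [mm_far h]; simp [G.Qk_pos k0 k s h0.le]
    · rfl

include hj in
lemma gg_far (r : ℝ) (p : Y) (h : r ≤ G.dd k0 p) : G.gg k0 j r p = G.ν (G.src k0) := by
  rcases G.cover p with ⟨w, rfl⟩ | ⟨k, s, h0, h1, rfl⟩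
  · exact G.gg_ν k0 j r w
  · rw [G.dd_P k0 k s h0.le h1] at h
    rw [G.gg_P k0 j hj r k s h0.le h1]
    split_ifs with hw
    · rw [if_pos hw.1] at h
      rw [mm_far h, mul_zero, G.P0, (hj k hw.1 hw.2).1]
    · rfl

lemma dd_Qk (k : G.K) (hk : G.src k = G.src k0) (u r : ℝ) (hr : r ≤ 1) (h1 : -r ≤ u)
    (h2 : u ≤ r) : G.dd k0 (G.Qk k0 k u) ≤ r := by
  unfold Qk
  split_ifs with h
  · rw [G.dd_P k0 k u h (by linarith), if_pos hk]; exact h2
  · rw [G.dd_P k0 k0 (-u) (by linarith) (by linarith), if_pos rfl]; linarith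

lemma hh_near (r : ℝ) (t : I) (p : Y) (hr : r < 1) (h : G.dd k0 p < r) :
    G.dd k0 (G.hh k0 r t p) ≤ r := by
  obtain ⟨k, hk, hp⟩ := G.dd_lt k0 p (by linarith)
  have hb := G.dd_bd k0 p
  generalize G.dd k0 p = s at *
  have ht0 := t.2.1
  have ht1 := t.2.2
  have hts : (t : ℝ) * (r - s) ≤ r - s := by nlinarith
  have hts' : 0 ≤ (t : ℝ) * (r - s) := mul_nonneg ht0 (by linarith)
  rw [hp, G.hh_P k0 r t k s hb.1 hb.2, if_pos hk, mm_near h.le hr.le]
  split_ifs with h'
  · rw [G.dd_P k0 k0 _ (by linarith) (by linarith), if_pos rfl]; linarith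
  · exact G.dd_Qk k0 k hk _ r hr.le (by linarith) (by linarith)

include hj in
lemma gg_near (r : ℝ) (p : Y) (hr : r < 1) (h : G.dd k0 p < r) :
    G.dd k0 (G.gg k0 j r p) ≤ r ∧ G.gg k0 j r p ≠ G.hh k0 r 1 p := by
  obtain ⟨k, hk, hp⟩ := G.dd_lt k0 p (by linarith)
  have hb := G.dd_bd k0 p
  generalize G.dd k0 p = s at *
  have hr0 : 0 < r := by linarith
  have hβ0 : 0 ≤ s * (r - s) := mul_nonneg hb.1 (by linarith)
  have hβ1 : s * (r - s) ≤ r := by nlinarith
  rw [hp, G.hh_P k0 r 1 k s hb.1 hb.2, if_pos hk, G.gg_P k0 j hj r k s hb.1 hb.2,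
    mm_near h.le hr.le]
  by_cases hkk : k = k0
  · rw [if_neg (by simp [hkk]), if_pos hkk, dd_ν, if_pos rfl]
    refine ⟨hr0.le, fun e => G.ne_ν k0 _ _ ?_ ?_ e.symm⟩ <;> simp <;> linarith
  · rw [if_pos ⟨hk, hkk⟩, if_neg hkk]
    obtain ⟨j1, j2, j3⟩ := hj k hk hkk
    refine ⟨by rw [G.dd_P k0 _ _ hβ0 (by linarith), if_pos j1]; exact hβ1, ?_⟩
    intro e
    simp only [Icc.coe_one, one_mul] at e
    rcases hb.1.eq_or_lt with hs | hs
    · rw [← hs, zero_mul, G.P0, sub_zero, zero_sub, G.Qk_neg k0 k hk r hr0.le] at e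
      exact G.ne_ν k0 r _ hr0 hr.le e.symm
    · have hβ : 0 < s * (r - s) := mul_pos hs (by linarith)
      rcases lt_trichotomy (s - (r - s)) 0 with hu | hu | hu
      · have e2 : s - (r - s) = -(r - s - s) := by ring
        rw [e2, G.Qk_neg k0 k hk _ (by linarith)] at e
        rcases G.inj _ _ _ _ hβ (by linarith) (by linarith) (by linarith) e with h1 | h1
        · exact j2 h1.1
        · linarith [h1.1]
      · rw [hu, G.Qk_pos k0 k 0 le_rfl, G.P0] at e
        exact G.ne_ν _ _ _ hβ (by linarith) e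
      · rw [G.Qk_pos k0 k _ hu.le] at e
        rcases G.inj _ _ _ _ hβ (by linarith) hu (by linarith) e with h1 | h1
        · exact j3 h1.1
        · linarith [h1.1]

end HG

end Pool.Agent.H56Z.GB
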