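import Mathlib
import Pool.Agent.H56Z.GB.Ghost
import Pool.Agent.H56Z.GB.Star

set_option autoImplicit false

/-! The case of a graph with a vertex of degree one or at least three. -/

open Set Topology unitInterval

namespace Pool.Agent.H56Z.GB

namespace HG

variable {Y : Type} [TopologicalSpace Y] (G : HG Y) (k0 : G.K) {n : ℕ}

/-- one factor of the radius -/
noncomputable def fac (f : Conf Y n) (a : Fin n × Fin n) : ℝ :=
  if a.1 = a.2 then 1 else (G.dd k0 (f.1 a.1) + G.dd k0 (f.1 a.2)) / 2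

/-- a radius within which there is at most one point of the configuration -/
noncomputable def rad (f : Conf Y n) : ℝ := (1 / 4) * ∏ a : Fin n × Fin n, G.fac k0 f a

lemma fac_pos (f : Conf Y n) (a : Fin n × Fin n) : 0 < G.fac k0 f a := by
  unfold fac
  split_ifs with h
  · exact one_pos
  · have h1 := (G.dd_bd k0 (f.1 a.1)).1
    have h2 := (G.dd_bd k0 (f.1 a.2)).1
    by_contra hc
    have e1 : G.dd k0 (f.1 a.1) = 0 := by linarith
    have e2 : G.dd k0 (f.1 a.2) = 0 := by linarith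
    exact h (f.2 ((G.dd_zero k0 _ e1).trans (G.dd_zero k0 _ e2).symm))

lemma fac_le (f : Conf Y n) (a : Fin n × Fin n) : G.fac k0 f a ≤ 1 := by
  unfold fac
  split_ifs with h
  · exact le_rfl
  · have h1 := (G.dd_bd k0 (f.1 a.1)).2
    have h2 := (G.dd_bd k0 (f.1 a.2)).2
    linarith

lemma rad_pos (f : Conf Y n) : 0 < G.rad k0 f :=
  mul_pos (by norm_num) (Finset.prod_pos fun a _ => G.fac_pos k0 f a)

lemma rad_lt (f : Conf Y n) : G.rad k0 f < 1 := by
  have : ∏ a : Fin n × Fin n, G.fac k0 f a ≤ 1 :=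
    Finset.prod_le_one (fun a _ => (G.fac_pos k0 f a).le) (fun a _ => G.fac_le k0 f a)
  unfold rad; linarith

lemma rad_sep (f : Conf Y n) (a b : Fin n) (hab : a ≠ b) (h : G.dd k0 (f.1 a) < G.rad k0 f) :
    G.rad k0 f < G.dd k0 (f.1 b) := by
  have h1 : ∏ c : Fin n × Fin n, G.fac k0 f c ≤ G.fac k0 f (a, b) := by
    rw [← Finset.mul_prod_erase _ _ (Finset.mem_univ (a, b))]
    have : ∏ c ∈ Finset.univ.erase (a, b), G.fac k0 f c ≤ 1 :=
      Finset.prod_le_one (fun c _ => (G.fac_pos k0 f c).le) (fun c _ => G.fac_le k0 f c)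
    have h2 := G.fac_pos k0 f (a, b)
    nlinarith
  have h2 : G.fac k0 f (a, b) = (G.dd k0 (f.1 a) + G.dd k0 (f.1 b)) / 2 := if_neg hab
  have h3 := G.rad_pos k0 f
  have h4 : G.rad k0 f = (1 / 4) * ∏ c : Fin n × Fin n, G.fac k0 f c := rfl
  linarith

lemma rad_cont : Continuous (G.rad k0 : Conf Y n → ℝ) := by
  unfold rad
  refine continuous_const.mul (continuous_finset_prod _ fun a _ => ?_)
  unfold fac
  split_ifs
  · exact continuous_const
  · exact (((G.dd_cont k0).comp (coord_cont _)).add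
      ((G.dd_cont k0).comp (coord_cont _))).div_const _

lemma rad_eq (f g : Conf Y n) (h : GB.mk f = GB.mk g) : G.rad k0 f = G.rad k0 g := by
  obtain ⟨π, hπ⟩ := (mk_eq_iff f g).1 h
  unfold rad
  congr 1
  refine (Fintype.prod_equiv (π.prodCongr π) _ _ ?_).symm
  intro a
  simp [fac, hπ]

lemma HH_inj (t : I) (f : Conf Y n) :
    Function.Injective fun i => G.hh k0 (G.rad k0 f) t (f.1 i) := by
  intro a b hab
  by_contra hne
  simp only at hab
  have hp := G.rad_pos k0 f
  rcases lt_or_ge (G.dd k0 (f.1 a)) (G.rad k0 f) with ha | ha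
  · have hb := G.rad_sep k0 f a b hne ha
    have h1 := G.hh_near k0 _ t _ (G.rad_lt k0 f) ha
    rw [hab, G.hh_far k0 _ t _ hp hb.le] at h1
    linarith
  · rcases lt_or_ge (G.dd k0 (f.1 b)) (G.rad k0 f) with hb | hb
    · have ha' := G.rad_sep k0 f b a (Ne.symm hne) hb
      have h1 := G.hh_near k0 _ t _ (G.rad_lt k0 f) hb
      rw [← hab, G.hh_far k0 _ t _ hp ha] at h1
      linarith
    · rw [G.hh_far k0 _ t _ hp ha, G.hh_far k0 _ t _ hp hb] at hab
      exact hne (f.2 hab)

/-- the isotopy of configurations -/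
noncomputable def HH : C(I × Conf Y n, Conf Y n) :=
  ⟨fun x => ⟨fun i => G.hh k0 (G.rad k0 x.2) x.1 (x.2.1 i), G.HH_inj k0 x.1 x.2⟩,
    Continuous.subtype_mk (continuous_pi fun i => (G.hh_cont k0).comp
      ((((G.rad_cont k0).comp continuous_snd).prodMk continuous_fst).prodMk
        ((coord_cont i).comp continuous_snd))) _⟩

variable (j : G.K → G.K)
  (hj : ∀ k, G.src k = G.src k0 → k ≠ k0 → G.src (j k) = G.src k0 ∧ j k ≠ k0 ∧ j k ≠ k)

open Classical in
/-- the marked point -/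
noncomputable def GG (f : Conf Y n) : Y :=
  if h : ∃ i, G.dd k0 (f.1 i) < G.rad k0 f then G.gg k0 j (G.rad k0 f) (f.1 h.choose)
  else G.ν (G.src k0)

lemma GG_near (f : Conf Y n) (i : Fin n) (h : G.dd k0 (f.1 i) < G.rad k0 f) :
    G.GG k0 j f = G.gg k0 j (G.rad k0 f) (f.1 i) := by
  have h' : ∃ i, G.dd k0 (f.1 i) < G.rad k0 f := ⟨i, h⟩
  rw [GG, dif_pos h']
  have : h'.choose = i := by
    by_contra hne
    have := G.rad_sep k0 f _ _ hne h'.choose_spec
    linarith
  rw [this]

lemma GG_far (f : Conf Y n) (h : ∀ i, G.rad k0 f ≤ G.dd k0 (f.1 i)) :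
    G.GG k0 j f = G.ν (G.src k0) := by
  rw [GG, dif_neg]
  rintro ⟨i, hi⟩
  linarith [h i]

include hj in
lemma GG_cont : Continuous (G.GG k0 j : Conf Y n → Y) := by
  let C : Option (Fin n) → Set (Conf Y n) := fun o =>
    ⋂ b : Fin n, {f | some b ≠ o → G.rad k0 f ≤ G.dd k0 (f.1 b)}
  have hC : ∀ o f, f ∈ C o ↔ ∀ b : Fin n, some b ≠ o → G.rad k0 f ≤ G.dd k0 (f.1 b) := by
    intro o f; simp only [C, mem_iInter]; rfl
  refine (locallyFinite_of_finite C).continuous ?_ ?_ ?_
  · rw [eq_univ_iff_forall]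
    intro f
    rw [mem_iUnion]
    by_cases h : ∃ i, G.dd k0 (f.1 i) < G.rad k0 f
    · obtain ⟨i, hi⟩ := h
      exact ⟨some i, (hC _ _).2 fun b hb =>
        (G.rad_sep k0 f i b (fun e => hb (by rw [e])) hi).le⟩
    · push Not at h
      exact ⟨none, (hC _ _).2 fun b _ => h b⟩
  · intro o
    refine isClosed_iInter fun b => ?_
    by_cases hb : some b ≠ o
    · simp only [hb, ne_eq, not_false_eq_true, forall_const]
      exact isClosed_le (G.rad_cont k0) ((G.dd_cont k0).comp (coord_cont b))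
    · simp [hb]
  · rintro (_ | i)
    · refine (continuousOn_const (c := G.ν (G.src k0))).congr fun f hf => ?_
      exact G.GG_far k0 j f fun b => (hC _ _).1 hf b (by simp)
    · have hc : Continuous fun f : Conf Y n => G.gg k0 j (G.rad k0 f) (f.1 i) :=
        (G.gg_cont k0 j hj).comp ((G.rad_cont k0).prodMk (coord_cont i))
      refine hc.continuousOn.congr fun f hf => ?_
      rcases lt_or_ge (G.dd k0 (f.1 i)) (G.rad k0 f) with h | h
      · exact G.GG_near k0 j f i h
      · show G.GG k0 j f = G.gg k0 j (G.rad k0 f) (f.1 i)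
        rw [G.gg_far k0 j hj _ _ h]
        refine G.GG_far k0 j f fun b => ?_
        by_cases hb : b = i
        · rw [hb]; exact h
        · exact (hC _ _).1 hf b (by simpa using hb)

include hj in
theorem step_ess [T2Space Y] (x : UC Y n) :
    ∃ (y : UC Y (n + 1)) (φ : FundamentalGroup (UC Y n) x →* FundamentalGroup (UC Y (n + 1)) y),
      Function.Injective φ := by
  refine ghost (G.HH k0) ?_ ?_ ⟨G.GG k0 j, G.GG_cont k0 j hj⟩ ?_ ?_ x
  · intro f
    apply Subtype.ext
    funext i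
    exact G.hh_zero k0 _ _
  · intro t f g h
    have hr := G.rad_eq k0 f g h
    obtain ⟨π, hπ⟩ := (mk_eq_iff f g).1 h
    refine (mk_eq_iff _ _).2 ⟨π, ?_⟩
    funext i
    show G.hh k0 (G.rad k0 g) t (g.1 i) = G.hh k0 (G.rad k0 f) t (f.1 (π i))
    rw [hr, hπ]; rfl
  · intro f g h
    have hr := G.rad_eq k0 f g h
    obtain ⟨π, hπ⟩ := (mk_eq_iff f g).1 h
    show G.GG k0 j f = G.GG k0 j g
    by_cases hex : ∃ i, G.dd k0 (g.1 i) < G.rad k0 g
    · obtain ⟨i, hi⟩ := hex
      rw [G.GG_near k0 j g i hi, G.GG_near k0 j f (π i) (by rw [hr]; rw [hπ] at hi; exact hi),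
        hr, hπ]
      rfl
    · push Not at hex
      rw [G.GG_far k0 j g hex, G.GG_far k0 j f]
      intro i
      have := hex (π.symm i)
      rw [hπ] at this
      simpa [hr] using this
  · rintro f ⟨b, hb⟩
    have hb' : G.hh k0 (G.rad k0 f) 1 (f.1 b) = G.GG k0 j f := hb
    have hp := G.rad_pos k0 f
    by_cases hex : ∃ i, G.dd k0 (f.1 i) < G.rad k0 f
    · obtain ⟨i, hi⟩ := hex
      rw [G.GG_near k0 j f i hi] at hb'
      obtain ⟨h1, h2⟩ := G.gg_near k0 j hj _ _ (G.rad_lt k0 f) hi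
      by_cases hbi : b = i
      · rw [hbi] at hb'
        exact h2 hb'.symm
      · have h3 := G.rad_sep k0 f i b (Ne.symm hbi) hi
        rw [← hb', G.hh_far k0 _ _ _ hp h3.le] at h1
        linarith
    · push Not at hex
      rw [G.GG_far k0 j f hex, G.hh_far k0 _ _ _ hp (hex b)] at hb'
      have h1 := hex b
      rw [hb', dd_ν, if_pos rfl] at h1
      linarith

end HG

end Pool.Agent.H56Z.GB
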