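import Mathlib
import Pool.Agent.H56Z.GB.Graph

set_option autoImplicit false

/-! A connected graph all of whose vertices have degree two is a line or a circle. -/

open Set Topology unitInterval

namespace Pool.Agent.H56Z.GB

namespace HG

variable {Y : Type} [TopologicalSpace Y] (G : HG Y)

/-- the edge that starts with a given half-edge -/
noncomputable def Ed (k : G.K) (u : ℝ) : Y :=
  if u ≤ 1 / 2 then G.P k (2 * u) else G.P (G.bar k) (2 - 2 * u)

lemma Ed_cont (k : G.K) : Continuous (G.Ed k) := by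
  unfold Ed
  refine Continuous.if_le ((G.cont _).comp (by fun_prop)) ((G.cont _).comp (by fun_prop))
    continuous_id continuous_const ?_
  intro u hu
  rw [hu]; norm_num [G.P1]

lemma Ed_zero (k : G.K) : G.Ed k 0 = G.ν (G.src k) := by
  unfold Ed; norm_num [G.P0]

lemma Ed_one (k : G.K) : G.Ed k 1 = G.ν (G.src (G.bar k)) := by
  unfold Ed; norm_num [G.P0]

lemma Ed_left (k : G.K) (s : ℝ) (h1 : s ≤ 1) : G.Ed k (s / 2) = G.P k s := by
  unfold Ed
  rw [if_pos (by linarith)]; congr 1; ring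

lemma Ed_right (k : G.K) (s : ℝ) (h1 : s ≤ 1) : G.Ed k (1 - s / 2) = G.P (G.bar k) s := by
  unfold Ed
  split_ifs with h
  · have : s = 1 := by linarith
    rw [this, G.P1]; norm_num
  · congr 1; ring

lemma Ed_cases (k : G.K) (u : ℝ) (h0 : 0 ≤ u) (_h1 : u < 1) :
    (u = 0 ∧ G.Ed k u = G.ν (G.src k)) ∨ (0 < u ∧ u ≤ 1 / 2 ∧ G.Ed k u = G.P k (2 * u)) ∨
      (1 / 2 < u ∧ G.Ed k u = G.P (G.bar k) (2 - 2 * u)) := by
  rcases h0.eq_or_lt with h | h
  · left; rw [← h]; exact ⟨rfl, G.Ed_zero k⟩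
  · right
    by_cases h' : u ≤ 1 / 2
    · exact Or.inl ⟨h, h', if_pos h'⟩
    · exact Or.inr ⟨not_le.1 h', if_neg h'⟩

theorem exists_param [PreconnectedSpace Y] (opp : G.K → G.K)
    (hopp : ∀ k, G.src (opp k) = G.src k ∧ opp k ≠ k ∧ ∀ j, G.src j = G.src k → j = k ∨ j = opp k)
    (k0 : G.K) : ∃ (p : ℝ → Y) (N : ℕ), IsQuotientMap p ∧
      ∀ x y, p x = p y ↔ ∃ z : ℤ, x - y = z * N := by
  have hoo : Function.Involutive opp := fun k =>
    ((hopp k).2.2 (opp (opp k)) ((hopp _).1.trans (hopp k).1)).resolve_right (hopp _).2.1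
  let B : Equiv.Perm G.K := Function.Involutive.toPerm G.bar G.bar_bar
  let O : Equiv.Perm G.K := Function.Involutive.toPerm opp hoo
  let τ : Equiv.Perm G.K := O * B
  have hτ : ∀ k, τ k = opp (G.bar k) := fun _ => rfl
  have hconj : B * τ * B⁻¹ = τ⁻¹ := by
    rw [eq_inv_iff_mul_eq_one]
    ext k
    show G.bar (opp (G.bar (G.bar (opp (G.bar k))))) = k
    rw [G.bar_bar, hoo, G.bar_bar]
  have hbar : ∀ (i : ℤ) k, G.bar ((τ ^ i) k) = (τ ^ (-i)) (G.bar k) := by
    intro i k
    have h1 : B * τ ^ i * B⁻¹ = τ ^ (-i) := by rw [← conj_zpow, hconj, inv_zpow, zpow_neg]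
    rw [← h1]
    show G.bar _ = G.bar ((τ ^ i) (G.bar (G.bar k)))
    rw [G.bar_bar]
  have hadd : ∀ (a b : ℤ) k, (τ ^ (a + b)) k = (τ ^ a) ((τ ^ b) k) := by
    intro a b k; rw [zpow_add]; rfl
  let κ : ℤ → G.K := fun n => (τ ^ n) k0
  have hκ : ∀ n, κ (n + 1) = opp (G.bar (κ n)) := by
    intro n
    show (τ ^ (n + 1)) k0 = _
    rw [add_comm, hadd, zpow_one]; rfl
  have noflip : ∀ a b, κ a ≠ G.bar (κ b) := by
    intro a b h
    have h1 : (τ ^ (a - b)) (κ b) = G.bar (κ b) := by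
      rw [← h]
      show (τ ^ (a - b)) ((τ ^ b) k0) = (τ ^ a) k0
      rw [← hadd, sub_add_cancel]
    generalize κ b = k at h1
    obtain ⟨i, hi | hi⟩ := Int.even_or_odd' (a - b)
    · have h2 : (τ ^ i) k = G.bar ((τ ^ i) k) := by
        rw [hbar, ← h1, ← hadd, hi]; congr 2; ring
      exact G.bar_ne _ h2.symm
    · have h2 : opp (G.bar ((τ ^ i) k)) = G.bar ((τ ^ i) k) := by
        rw [← hτ]
        conv_rhs => rw [hbar, ← h1, ← hadd, hi]
        rw [show -i + (2 * i + 1) = 1 + i by ring, hadd, zpow_one]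
      exact (hopp _).2.1 h2
  let N : ℕ := Function.minimalPeriod (τ • ·) k0
  have hN : ∀ a b, κ a = κ b ↔ (N : ℤ) ∣ a - b := by
    intro a b
    rw [← MulAction.zpow_smul_eq_iff_minimalPeriod_dvd]
    show (τ ^ a) k0 = (τ ^ b) k0 ↔ (τ ^ (a - b)) k0 = k0
    rw [show a = b + (a - b) by ring, hadd, add_sub_cancel_left]
    exact (τ ^ b).injective.eq_iff
  have hinj : ∀ a b u v, 0 ≤ u → u < 1 → 0 ≤ v → v < 1 → G.Ed (κ a) u = G.Ed (κ b) v →
      κ a = κ b ∧ u = v := by
    intro a b u v u0 u1 v0 v1 h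
    rcases G.Ed_cases (κ a) u u0 u1 with ⟨a1, a2⟩ | ⟨a1, a2, a3⟩ | ⟨a1, a2⟩ <;>
      rcases G.Ed_cases (κ b) v v0 v1 with ⟨b1, b2⟩ | ⟨b1, b2, b3⟩ | ⟨b1, b2⟩
    · rw [a2, b2] at h
      refine ⟨((hopp _).2.2 _ (G.ν_inj h)).resolve_right fun e => noflip a (b - 1) ?_,
        a1.trans b1.symm⟩
      rw [e, show b = (b - 1) + 1 by ring, hκ, hoo, add_sub_cancel_right]
    · rw [a2, b3] at h
      exact absurd h.symm (G.ne_ν _ _ _ (by linarith) (by linarith))
    · rw [a2, b2] at h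
      exact absurd h.symm (G.ne_ν _ _ _ (by linarith) (by linarith))
    · rw [a3, b2] at h
      exact absurd h (G.ne_ν _ _ _ (by linarith) (by linarith))
    · rw [a3, b3] at h
      rcases G.inj _ _ _ _ (by linarith) (by linarith) (by linarith) (by linarith) h with e | e
      · exact ⟨e.1, by linarith [e.2]⟩
      · exact absurd e.2.2 (noflip _ _)
    · rw [a3, b2] at h
      rcases G.inj _ _ _ _ (by linarith) (by linarith) (by linarith) (by linarith) h with e | e
      · exact absurd e.1 (noflip _ _)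
      · linarith [e.2.1]
    · rw [a2, b2] at h
      exact absurd h (G.ne_ν _ _ _ (by linarith) (by linarith))
    · rw [a2, b3] at h
      rcases G.inj _ _ _ _ (by linarith) (by linarith) (by linarith) (by linarith) h with e | e
      · exact absurd e.1.symm (noflip _ _)
      · linarith [e.1]
    · rw [a2, b2] at h
      rcases G.inj _ _ _ _ (by linarith) (by linarith) (by linarith) (by linarith) h with e | e
      · exact ⟨Function.Involutive.injective G.bar_bar e.1, by linarith [e.2]⟩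
      · linarith [e.1]
  let p : ℝ → Y := fun x => G.Ed (κ ⌊x⌋) (Int.fract x)
  have hp : ∀ (n : ℤ) (x : ℝ), x ∈ Icc (n : ℝ) (n + 1) → p x = G.Ed (κ n) (x - n) := by
    intro n x hx
    rcases hx.2.eq_or_lt with h | h
    · have e : x = ((n + 1 : ℤ) : ℝ) := by rw [h]; push_cast; ring
      show G.Ed (κ ⌊x⌋) (Int.fract x) = _
      rw [e, Int.floor_intCast, Int.fract_intCast, Ed_zero, hκ, (hopp _).1]
      push_cast
      rw [add_sub_cancel_left, Ed_one]
    · have e : ⌊x⌋ = n := Int.floor_eq_iff.2 ⟨hx.1, h⟩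
      show G.Ed (κ ⌊x⌋) (x - ⌊x⌋) = _
      rw [e]
  have hpon : ∀ n : ℤ, ContinuousOn p (Icc (n : ℝ) (n + 1)) := fun n =>
    (((G.Ed_cont (κ n)).comp (continuous_id.sub continuous_const)).continuousOn).congr (hp n)
  have hpc : Continuous p := by
    refine continuous_of_cover_nhds
      (s := fun n : ℤ => Icc (((n - 1 : ℤ) : ℝ)) (((n - 1 : ℤ) : ℝ) + 1) ∪ Icc (n : ℝ) (n + 1))
      (fun x => ⟨⌊x⌋, ?_⟩)
      (fun n => (hpon _).union_of_isClosed (hpon _) isClosed_Icc isClosed_Icc)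
    have h1 := Int.floor_le x
    have h2 := Int.lt_floor_add_one x
    refine Filter.mem_of_superset (Ioo_mem_nhds (a := (⌊x⌋ : ℝ) - 1) (b := (⌊x⌋ : ℝ) + 1)
      (by linarith) h2) ?_
    intro y hy
    push_cast
    rcases le_total y ⌊x⌋ with h | h
    · exact Or.inl ⟨hy.1.le, by linarith⟩
    · exact Or.inr ⟨h, hy.2.le⟩
  have hl : ∀ (n : ℤ) (s : I), G.P (κ n) s = p (n + s / 2) := by
    intro n s
    rw [hp n _ ⟨by linarith [s.2.1], by linarith [s.2.2]⟩, add_sub_cancel_left,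
      G.Ed_left _ _ s.2.2]
  have hr : ∀ (n : ℤ) (s : I), G.P (G.bar (κ n)) s = p (n + (1 - s / 2)) := by
    intro n s
    rw [hp n _ ⟨by linarith [s.2.2], by linarith [s.2.1]⟩, add_sub_cancel_left,
      G.Ed_right _ _ s.2.2]
  let Orb : G.K → Prop := fun k => ∃ n, k = κ n ∨ k = G.bar (κ n)
  have hin : ∀ k, Orb k → ∀ s : I, G.P k s ∈ range p := by
    rintro k ⟨n, rfl | rfl⟩ s
    · exact ⟨_, (hl n s).symm⟩
    · exact ⟨_, (hr n s).symm⟩
  have hout : ∀ k (s : I), G.P k s ∈ range p → Orb k := by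
    rintro k s ⟨x, hx⟩
    have hx' : G.Ed (κ ⌊x⌋) (Int.fract x) = G.P k s := hx
    have hs1 := s.2.2
    rcases s.2.1.eq_or_lt with hs | hs
    · rw [← hs, G.P0] at hx'
      rcases G.Ed_cases (κ ⌊x⌋) _ (Int.fract_nonneg x) (Int.fract_lt_one x) with
        ⟨_, a2⟩ | ⟨a1, a2, a3⟩ | ⟨a1, a2⟩
      · rw [a2] at hx'
        rcases (hopp _).2.2 _ (G.ν_inj hx').symm with e | e
        · exact ⟨_, Or.inl e⟩
        · refine ⟨⌊x⌋ - 1, Or.inr ?_⟩
          rw [e, show ⌊x⌋ = (⌊x⌋ - 1) + 1 by ring, hκ, hoo, add_sub_cancel_right]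
      · rw [a3] at hx'
        exact absurd hx' (G.ne_ν _ _ _ (by linarith) (by linarith))
      · rw [a2] at hx'
        exact absurd hx' (G.ne_ν _ _ _ (by linarith [Int.fract_lt_one x]) (by linarith))
    · rcases G.Ed_cases (κ ⌊x⌋) _ (Int.fract_nonneg x) (Int.fract_lt_one x) with
        ⟨_, a2⟩ | ⟨a1, a2, a3⟩ | ⟨a1, a2⟩
      · rw [a2] at hx'
        exact absurd hx'.symm (G.ne_ν _ _ _ hs hs1)
      · rw [a3] at hx'
        rcases G.inj _ _ _ _ (by linarith) (by linarith) hs hs1 hx' with e | e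
        · exact ⟨_, Or.inl e.1.symm⟩
        · exact ⟨_, Or.inr e.2.2⟩
      · rw [a2] at hx'
        rcases G.inj _ _ _ _ (by linarith [Int.fract_lt_one x]) (by linarith) hs hs1 hx' with e | e
        · exact ⟨_, Or.inr e.1.symm⟩
        · exact ⟨_, Or.inl (by rw [e.2.2, G.bar_bar])⟩
  have hclopen : IsClopen (range p) := by
    constructor
    · refine G.weak _ fun k => ?_
      by_cases hk : Orb k
      · have : (fun s : I => G.P k s) ⁻¹' range p = univ := eq_univ_iff_forall.2 (hin k hk)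
        rw [this]; exact isClosed_univ
      · have : (fun s : I => G.P k s) ⁻¹' range p = ∅ :=
          eq_empty_of_forall_notMem fun s hs => hk (hout k s hs)
        rw [this]; exact isClosed_empty
    · rw [← isClosed_compl_iff]
      refine G.weak _ fun k => ?_
      by_cases hk : Orb k
      · have : (fun s : I => G.P k s) ⁻¹' (range p)ᶜ = ∅ :=
          eq_empty_of_forall_notMem fun s hs => hs (hin k hk s)
        rw [this]; exact isClosed_empty
      · have : (fun s : I => G.P k s) ⁻¹' (range p)ᶜ = univ :=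
          eq_univ_iff_forall.2 fun s hs => hk (hout k s hs)
        rw [this]; exact isClosed_univ
  have hsurj : range p = univ := hclopen.eq_univ (range_nonempty p)
  refine ⟨p, N, ?_, ?_⟩
  · rw [isQuotientMap_iff_isClosed]
    refine ⟨range_eq_univ.1 hsurj, fun A => ⟨fun hA => hA.preimage hpc, fun hA => ?_⟩⟩
    refine G.weak _ fun k => ?_
    obtain ⟨n, rfl | rfl⟩ := hout k 0 (by rw [hsurj]; trivial)
    · simp only [hl]
      exact hA.preimage (f := fun s : I => (n : ℝ) + s / 2) (by fun_prop)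
    · simp only [hr]
      exact hA.preimage (f := fun s : I => (n : ℝ) + (1 - s / 2)) (by fun_prop)
  · intro x y
    constructor
    · intro h
      obtain ⟨h1, h2⟩ := hinj _ _ _ _ (Int.fract_nonneg x) (Int.fract_lt_one x)
        (Int.fract_nonneg y) (Int.fract_lt_one y) h
      obtain ⟨z, hz⟩ := (hN _ _).1 h1
      refine ⟨z, ?_⟩
      have hz' : (⌊x⌋ : ℝ) - ⌊y⌋ = N * z := by exact_mod_cast hz
      have e1 := Int.floor_add_fract x
      have e2 := Int.floor_add_fract y
      linarith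
    · rintro ⟨z, hz⟩
      have e : x = y + ((z * N : ℤ) : ℝ) := by push_cast; linarith
      show G.Ed (κ ⌊x⌋) (Int.fract x) = G.Ed (κ ⌊y⌋) (Int.fract y)
      rw [e, Int.fract_add_intCast, Int.floor_add_intCast, (hN _ _).2 ⟨z, by ring⟩]

theorem line_or_circle [PreconnectedSpace Y] (opp : G.K → G.K)
    (hopp : ∀ k, G.src (opp k) = G.src k ∧ opp k ≠ k ∧ ∀ j, G.src j = G.src k → j = k ∨ j = opp k)
    (k0 : G.K) : Nonempty (Y ≃ₜ ℝ) ∨ Nonempty (Y ≃ₜ AddCircle (1 : ℝ)) := by
  obtain ⟨p, N, hq, hp⟩ := G.exists_param opp hopp k0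
  rcases Nat.eq_zero_or_pos N with h | h
  · left
    have hinj : Function.Injective p := by
      intro x y e
      obtain ⟨z, hz⟩ := (hp x y).1 e
      rw [h] at hz
      simp only [Nat.cast_zero, mul_zero] at hz
      linarith
    exact ⟨(isHomeomorph_iff_isQuotientMap_injective.2 ⟨hq, hinj⟩).homeomorph.symm⟩
  · right
    have hN : (N : ℝ) ≠ 0 := by positivity
    have key : ∀ a b : ℝ, p (N * a) = p (N * b) ↔
        (a : AddCircle (1 : ℝ)) = (b : AddCircle (1 : ℝ)) := by
      intro a b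
      rw [hp, ← sub_eq_zero, ← AddCircle.coe_sub, AddCircle.coe_eq_zero_iff]
      constructor
      · rintro ⟨z, hz⟩
        refine ⟨z, mul_left_cancel₀ hN ?_⟩
        simp only [zsmul_eq_mul, mul_one]
        linarith
      · rintro ⟨z, hz⟩
        refine ⟨z, ?_⟩
        simp only [zsmul_eq_mul, mul_one] at hz
        rw [hz]; ring
    have hq' : IsQuotientMap fun a : ℝ => p (N * a) :=
      hq.comp (Homeomorph.mulLeft₀ (N : ℝ) hN).isQuotientMap
    let q : AddCircle (1 : ℝ) → Y := Quotient.lift (fun a : ℝ => p (N * a))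
      fun a b hab => (key a b).2 (Quotient.sound hab)
    have hqq : IsQuotientMap q := by
      refine IsQuotientMap.of_comp (f := ((↑) : ℝ → AddCircle (1 : ℝ)))
        continuous_quotient_mk' (hq'.continuous.quotient_lift _) hq'
    have hqi : Function.Injective q := by
      intro a b
      obtain ⟨a, rfl⟩ := QuotientAddGroup.mk_surjective a
      obtain ⟨b, rfl⟩ := QuotientAddGroup.mk_surjective b
      exact (key a b).1
    exact ⟨(isHomeomorph_iff_isQuotientMap_injective.2 ⟨hqq, hqi⟩).homeomorph.symm⟩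

end HG

end Pool.Agent.H56Z.GB
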