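import Mathlib
import Pool.Agent.H56Z.GB.Ess
import Pool.Agent.H56Z.GB.Circ
import Pool.Agent.H56Z.GB.Two

set_option autoImplicit false

/-! Graph braid groups embed into graph braid groups with more points. -/

open Set Topology unitInterval

namespace Pool.Agent.H56Z.GB

theorem emb_graph {Y : Type} [TopologicalSpace Y] [T2Space Y] [ConnectedSpace Y] (G : HG Y)
    {m n : ℕ} (hn : 2 ≤ n) (hmn : m ≤ n) : Emb Y m n := by
  have := G.lpc
  by_cases hK : Nonempty G.K
  · obtain ⟨k1⟩ := hK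
    by_cases hess : ∃ k0, ∀ k, G.src k = G.src k0 → k ≠ k0 →
        ∃ j, G.src j = G.src k0 ∧ j ≠ k0 ∧ j ≠ k
    · obtain ⟨k0, h⟩ := hess
      choose! j hj using h
      exact emb_of_step (fun k x => G.step_ess k0 j hj x) hmn
    · push Not at hess
      choose opp h1 h2 h3 using hess
      rcases G.line_or_circle opp (fun k => ⟨h1 k, h2 k, fun j hj => by
        by_cases e : j = k
        · exact Or.inl e
        · exact Or.inr (h3 k j hj e)⟩) k1 with ⟨⟨e⟩⟩ | ⟨⟨e⟩⟩
      · exact emb_of_step (fun k x => step_line e x) hmn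
      · obtain ⟨n', rfl⟩ : ∃ n', n = n' + 1 := ⟨n - 1, by omega⟩
        exact emb_of_exists fun x => emb_circle e x
  · intro x y
    exfalso
    obtain ⟨f, _⟩ := mk_surj y
    have hcl : ∀ A : Set Y, IsClosed A := fun A => G.weak A fun k => absurd ⟨k⟩ hK
    have hc : IsClopen ({f.1 ⟨0, by omega⟩} : Set Y) := ⟨hcl _, isClosed_compl_iff.1 (hcl _)⟩
    have hu := hc.eq_univ (singleton_nonempty _)
    have h1 : f.1 ⟨1, by omega⟩ ∈ ({f.1 ⟨0, by omega⟩} : Set Y) := by rw [hu]; trivial
    have h2 := f.2 (mem_singleton_iff.1 h1)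
    simp at h2

end Pool.Agent.H56Z.GB
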